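import Pool.Agent.ZES.StmtsG

/-!
ZES, block L: lattices and closed subgroups. Complete proofs in the docstrings.
-/

namespace Pool.Agent.ZES

open scoped BigOperators InnerProductSpace

/-- The projection of the lattice `L` to the orthogonal complement of `W`. -/
noncomputable def LC {V : Type} [NormedAddCommGroup V] [InnerProductSpace ℂ V]
    [FiniteDimensional ℂ V] (L : AddSubgroup V) (W : Submodule ℂ V) : AddSubgroup V :=
  L.map (Wᗮ.starProjection : V →L[ℂ] V).toLinearMap.toAddMonoidHom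

/-- `W` is an abelian subvariety for the lattice `L`: it is spanned over the reals by the lattice
vectors in it, and the projection of `L` to the orthogonal complement is discrete. -/
structure AVW {V : Type} [NormedAddCommGroup V] [InnerProductSpace ℂ V] [FiniteDimensional ℂ V]
    (L : AddSubgroup V) (W : Submodule ℂ V) : Prop where
  span : ∀ w ∈ W, w ∈ Submodule.span ℝ {u : V | u ∈ L ∧ u ∈ W}
  disc : DiscreteTopology (LC L W)

/-- **Row LIC** (a closed subgroup without lines is discrete). PROOF. Suppose Z is not discrete: then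
for every n there is `z_n ∈ Z`, `z_n <> 0`, `‖z_n‖ < 1/(n+1)` (0 is not isolated:
`AddSubgroup.discreteTopology_iff..`, or `discreteTopology_iff_isOpen_singleton_zero` for Z and
Metric). The unit sphere is compact (`isCompact_sphere`, finite dimension, `FiniteDimensional.proper`):
after passing to a subsequence `z_n / ‖z_n‖ → u`, `‖u‖ = 1`. For real t: the integers
`k_n = ⌊t / ‖z_n‖⌋` satisfy `|k_n ‖z_n‖ - t| <= ‖z_n‖ → 0`, so
`k_n • z_n = (k_n ‖z_n‖) • (z_n / ‖z_n‖) → t • u`; Z is closed and `k_n • z_n ∈ Z`, so `t • u ∈ Z`. The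
hypothesis gives `u = 0`: contradiction. -/
def LicStmt : Prop :=
  ∀ (E : Type) [NormedAddCommGroup E] [NormedSpace ℝ E] [FiniteDimensional ℝ E]
    (Z : AddSubgroup E), IsClosed (Z : Set E) → (∀ v : E, (∀ t : ℝ, t • v ∈ Z) → v = 0) →
    DiscreteTopology Z

/-- **Row RNK** (ranks). PROOF. Let `d = dim E`. L is a lattice (`IsZLattice`), of Z-rank d
(`ZLattice.rank`), Z-module finite and free. `L' = π(L)` is discrete, so its Z-rank is
`finrank ℝ (span ℝ L') <= finrank ℝ (range π) = d - finrank ℝ (ker π)`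
(`Real.finrank_eq_int_finrank_of_discrete`, `Submodule.span_int_eq..`). `K0 = {x ∈ L : π x = 0}` is the
kernel of `L → L'`, so its Z-rank is `d - rank L' >= finrank ℝ (ker π)` (rank-nullity over ℤ:
`LinearMap.rank_range_add_rank_ker`, `Submodule.finrank_quotient_add_finrank`). K0 is discrete, so
`finrank ℝ (span ℝ K0) = rank K0 >= finrank ℝ (ker π)`, and `span ℝ K0 ≤ ker π`: equal
(`Submodule.eq_of_le_of_finrank_le`). -/
def RnkStmt : Prop :=
  ∀ (E : Type) [NormedAddCommGroup E] [NormedSpace ℝ E] [FiniteDimensional ℝ E]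
    (L : AddSubgroup E) (π : E →ₗ[ℝ] E), DiscreteTopology L →
    Submodule.span ℝ (L : Set E) = ⊤ → DiscreteTopology (L.map π.toAddMonoidHom) →
    Submodule.span ℝ {x : E | x ∈ L ∧ π x = 0} = LinearMap.ker π

/-- **Row LOU** (OUTPUT 1 OF BLOCK L; uses LIC, RNK). PROOF. `W ≤ Z` (c = 1). For `x ∈ Z` the
component `x_C = x - x_W` is in Z (`x_W ∈ W ≤ Z`), where `x_W = W.starProjection x`,
`x_C = Wᗮ.starProjection x` (their sum is x: `Submodule.starProjection_add_starProjection_orthogonal`
or similar). `Z' = Z ∩ Wᗮ` is a closed subgroup; if `t • v ∈ Z'` for all real t then `v ∈ W`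
(hypothesis) and `v ∈ Wᗮ`, so v = 0: Z' is discrete (LIC). `LC L W ≤ Z'`, so `LC L W` is discrete
(`DiscreteTopology.of_subset`). RNK for the real linear map `x ↦ x_C` (kernel = W): the real span of
`{x ∈ L : x_C = 0} = {x ∈ L : x ∈ W}` is W. -/
def LouStmt : Prop :=
  ∀ (V : Type) [NormedAddCommGroup V] [InnerProductSpace ℂ V] [FiniteDimensional ℂ V]
    (L : AddSubgroup V) (χ : V → ℂ), LAT L χ → ∀ (Z : AddSubgroup V) (W : Submodule ℂ V),
    IsClosed (Z : Set V) → L ≤ Z → (∀ w, w ∈ W ↔ ∀ c : ℂ, c • w ∈ Z) →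
    (∀ v : V, (∀ t : ℝ, (t : ℂ) • v ∈ Z) → v ∈ W) → AVW L W

/-- **Row CPT** (cocompactness of the lattice vectors in a spanned subspace). PROOF. The set
`S = {u ∈ L : u ∈ W}` spans the real subspace W, so it contains a real basis `b_1, .., b_k` of W
(`exists_linearIndependent`, `Submodule.exists_fun_fin_finrank_span_eq..`). `w = sum t_i b_i`,
`ω = sum ⌊t_i⌋ b_i ∈ L ∩ W`, `‖w - ω‖ <= sum ‖b_i‖ = R`. -/
def CptStmt : Prop :=
  ∀ (V : Type) [NormedAddCommGroup V] [InnerProductSpace ℂ V] [FiniteDimensional ℂ V]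
    (L : AddSubgroup V) (W : Submodule ℂ V),
    (∀ w ∈ W, w ∈ Submodule.span ℝ {u : V | u ∈ L ∧ u ∈ W}) →
    ∃ R : ℝ, 0 ≤ R ∧ ∀ w ∈ W, ∃ ω ∈ L, ω ∈ W ∧ ‖w - ω‖ ≤ R

/-- **Row GSM** (Gaussian sums over discrete groups). PROOF. L is a discrete subgroup of a
finite-dimensional real space: as Z-module finite of some rank r (`ZLattice`-API for the Z-submodule
`AddSubgroup.toIntSubmodule`; `ZLattice.summable_norm_pow_inv` in
Mathlib.Algebra.Module.ZLattice.Summable: `sum ‖z‖^(-n)` converges for `n > r`), and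
`exp (- c t^2) <= C_n t^(-n)` for t > 0; the term at 0 is one term. (Mathlib's statement may need
`IsZLattice` for the real span of L: apply it to the space `Submodule.span ℝ L`, or use any other
argument.) -/
def GsmStmt : Prop :=
  ∀ (E : Type) [NormedAddCommGroup E] [NormedSpace ℝ E] [FiniteDimensional ℝ E]
    (L : AddSubgroup E), DiscreteTopology L → ∀ c : ℝ, 0 < c →
    Summable (fun ν : L => Real.exp (-(c * ‖(ν : E)‖ ^ 2)))

end Pool.Agent.ZES
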