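import Pool.Agent.ZES.StmtsK

/-!
ZES, block Z: the abstract zero estimate, its form for a Siegel matrix, and the theorem on torsion
and the Szpiro ratio. Complete proofs in the docstrings.
-/

namespace Pool.Agent.ZES

open scoped BigOperators InnerProductSpace
open Pool.Agent.THS

/-- **Row TNM** (products and powers in TN; uses ALN). PROOF. (1) `Submodule.mul_le`; the factors
multiply: `χ^a χ^b = χ^(a+b)`, `al (π a) ω x * al (π b) ω x = al (π (a+b)) ω x` (ALN (3)). (2) induction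
on m from (1); m = 0: constants (`E ^ 0 = 1`, `al 0 ω x = 1`, `χ ω ^ 0 = 1`). (3) the factor at
`x + y` times the factor at `x - y` of `al (π D) ω` is `al (2 π D) ω x` (ALN (2):
`exp (πD <ω,y>) exp (- πD <ω,y>) = 1`). (4) `χ 0 = 1` (mul at 0, 0 and sq), `χ (-ω) = χ ω` (mul at
`ω, -ω`: `Im <ω,-ω> = 0`, and `χ ω ^ 2 = 1`); `al a (-ω) (-x) = al a ω x`. -/
def TnmStmt : Prop :=
  ∀ (V : Type) [NormedAddCommGroup V] [InnerProductSpace ℂ V] (L : AddSubgroup V) (χ : V → ℂ),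
    LAT L χ → (∀ a b : ℕ, TN L χ a * TN L χ b ≤ TN L χ (a + b)) ∧
      (∀ D m : ℕ, TN L χ D ^ m ≤ TN L χ (m * D)) ∧
      (∀ D : ℕ, ∀ p ∈ TN L χ D, ∀ q ∈ TN L χ D, ∀ y : V,
        (fun x => p (x + y) * q (x - y)) ∈ TN L χ (2 * D)) ∧
      ∀ D : ℕ, ∀ f ∈ TN L χ D, (fun x => f (-x)) ∈ TN L χ D

/-- **Row ESD** (uses TNM). PROOF. addl: TNM (3) and the hypothesis on `2 D`; neg: TNM (4); dif: the
definition of TT. -/
def EsdStmt : Prop :=
  ∀ (V : Type) [NormedAddCommGroup V] [InnerProductSpace ℂ V] (L : AddSubgroup V) (χ : V → ℂ),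
    LAT L χ → ∀ D : ℕ, TN L χ (2 * D) ≤ TN L χ D * TN L χ D → Module.Finite ℂ ↥(TN L χ D) →
      (∀ x, ∃ q ∈ TN L χ D, q x ≠ 0) → ES (TN L χ D)

/-- **Row JAC** (choice of r functions). PROOF. Let `U` be the subspace `S` of V, r its dimension. The
linear map `A → Dual ℂ S`, `f ↦ (v ↦ fderiv f x v)` (linear in f because all `f ∈ A` are
differentiable) has an image with zero common kernel, so it is onto (a proper subspace of the dual of a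
finite-dimensional space has a nonzero common zero: `Subspace.dualCoannihilator..`,
`Submodule.dualCoannihilator_eq_bot_iff`-type, or a dimension argument). Choose preimages of the dual
basis. -/
def JacStmt : Prop :=
  ∀ (V : Type) [NormedAddCommGroup V] [NormedSpace ℂ V] [FiniteDimensional ℂ V]
    (A : Submodule ℂ (V → ℂ)) (S : Submodule ℂ V) (r : ℕ), r = Module.finrank ℂ ↥S →
    (∀ f ∈ A, Differentiable ℂ f) → ∀ x : V, (∀ v ∈ S, (∀ f ∈ A, fderiv ℂ f x v = 0) → v = 0) →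
    ∃ f : Fin r → V → ℂ, (∀ i, f i ∈ A) ∧ ∀ v ∈ S, (∀ i, fderiv ℂ (f i) x v = 0) → v = 0

/-- **Row SEP** (separated points and dimension). PROOF. The functions `F i` are linearly independent
(evaluate a relation at `p k`), so `s <= finrank` (`LinearIndependent.fintype_card_le_finrank`, in the
submodule). -/
def SepStmt : Prop :=
  ∀ (V : Type) (A : Submodule ℂ (V → ℂ)) (s : ℕ), Module.Finite ℂ ↥A → ∀ (p : Fin s → V)
    (F : Fin s → V → ℂ), (∀ i, F i ∈ A ∧ F i (p i) ≠ 0 ∧ ∀ k, k ≠ i → F i (p k) = 0) →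
    s ≤ Module.finrank ℂ ↥A

/-- **Row BND** (the bound for the number of cosets; uses CNT, JAC, SEP, TNM, PWD, ESD). PROOF. `E = TN D`
is ES (ESD); put `n = r m D + 2 >= 1`, `r = finrank Wᗮ <= g`. Suppose `z ∈ Γ` and for all
`1 <= M <= n^g` there is no `u ∈ W` with `M z - u ∈ L`. Put `s = n^g + 1`, `lam i = i • z` for
`i < s`. For `i <> k`, `ω ∈ L`: `lam k + ω - lam i = u ∈ W` would give `(k - i) z - u = -ω ∈ L` for
k > i, and `(i - k) z - (-u) = ω ∈ L` for i > k: contradiction. For every i JAC with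
`A = E ^ m ⊓ Van Γ` (differentiable functions, PWD), `S = Wᗮ`, x = lam i ∈ Γ ≤ Z: a `v ∈ Wᗮ` killed
by all `fderiv f (lam i)` is in W (hypothesis), so v = 0. This gives `f i j ∈ E ^ m ⊓ Van Γ ≤ TN (m D)`
(TNM (2)); they vanish on Z (definition of Zr), which contains `lam k` and `lam i + W`. CNT (m' = m D)
gives F, SEP: `n^g + 1 = s <= finrank (TN n) <= n^g`: contradiction. -/
def BndStmt : Prop :=
  ∀ (g D m : ℕ), 1 ≤ m → ∀ (V : Type) [NormedAddCommGroup V] [InnerProductSpace ℂ V]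
    [FiniteDimensional ℂ V] (L : AddSubgroup V) (χ : V → ℂ), LAT L χ →
    TN L χ (2 * D) ≤ TN L χ D * TN L χ D → (∀ x, ∃ q ∈ TN L χ D, q x ≠ 0) →
    (∀ x, ∃ q ∈ TN L χ 2, q x ≠ 0) →
    (∀ n, 1 ≤ n → Module.Finite ℂ ↥(TN L χ n) ∧ Module.finrank ℂ ↥(TN L χ n) ≤ n ^ g) →
    Module.Finite ℂ ↥(TN L χ D) →
    ∀ (Γ Z : AddSubgroup V) (W : Submodule ℂ V), (Z : Set V) = Zr (TN L χ D) (Γ : Set V) m →
    Γ ≤ Z → (∀ w ∈ W, w ∈ Z) → AVW L W →
    (∀ z ∈ Z, ∀ v : V, (∀ f ∈ TN L χ D ^ m ⊓ Van (Γ : Set V), fderiv ℂ f z v = 0) → v ∈ W) →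
    ∀ z ∈ Γ, ∃ M : ℕ, 1 ≤ M ∧ M ≤ (Module.finrank ℂ ↥Wᗮ * (m * D) + 2) ^ g ∧
      ∃ u ∈ W, M • z - u ∈ L

/-- **Row AZE** (abstract zero estimate; uses CHN, GOU, LOU, ESD, TNM, PWD, BND). PROOF. J from CHN for
`M = D^g`; `B = (g * (2^J * D) + 2)^g + 2^J * D`. Given the data: `TN D` has dimension `<= D^g`, so it is
`span (range v)` for some `v : Fin (D^g) → V → ℂ` (a basis, padded with 0). CHN with K = ℂ, R = V → ℂ,
I = VanI Γ: `j <= J`, `m = 2^j`, `Stab (TN D) Γ m`. ESD; GOU: Z, W. LOU (`L ≤ Γ ≤ Z`): AVW L W. `W ≠ ⊤`: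
`F x <> 0` gives `x ∉ Z`, and `W ≤ Z` (c = 1). BND: `finrank Wᗮ <= g`, `m D <= 2^J D`, so the bound is
`<= B`. `k = m D`: let v be such that `fderiv f 0 v = 0` for all `f ∈ TN k` vanishing on `Γ + W`. Every
`f ∈ E ^ m ⊓ Van Γ` is in `TN k` (TNM) and vanishes on Z, which contains `Γ + W`; so v ∈ W by GOU at
z = 0. -/
def AzeStmt : Prop :=
  ∀ (g D : ℕ), 1 ≤ D → ∃ B : ℕ, ∀ (V : Type) [NormedAddCommGroup V] [InnerProductSpace ℂ V]
    [FiniteDimensional ℂ V] (L : AddSubgroup V) (χ : V → ℂ), Module.finrank ℂ V = g → LAT L χ →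
    TN L χ (2 * D) ≤ TN L χ D * TN L χ D → (∀ x, ∃ q ∈ TN L χ D, q x ≠ 0) →
    (∀ x, ∃ q ∈ TN L χ 2, q x ≠ 0) →
    (∀ n, 1 ≤ n → Module.Finite ℂ ↥(TN L χ n) ∧ Module.finrank ℂ ↥(TN L χ n) ≤ n ^ g) →
    ∀ Γ : AddSubgroup V, L ≤ Γ → ∀ F ∈ TN L χ D, (∀ x ∈ Γ, F x = 0) → (∃ x, F x ≠ 0) →
    ∃ W : Submodule ℂ V, W ≠ ⊤ ∧ (∀ w ∈ W, w ∈ Submodule.span ℝ {u : V | u ∈ L ∧ u ∈ W}) ∧
      (∀ z ∈ Γ, ∃ M : ℕ, 1 ≤ M ∧ M ≤ B ∧ ∃ u ∈ W, M • z - u ∈ L) ∧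
      ∃ k : ℕ, 1 ≤ k ∧ k ≤ B ∧ ∀ v : V,
        (∀ f ∈ TN L χ k, (∀ x ∈ Γ, ∀ w ∈ W, f (x + w) = 0) → fderiv ℂ f 0 v = 0) → v ∈ W

/-- **Row TRF** (transfer of the hypotheses; uses DIM, MUL, RML). PROOF. For every n the map
`F ↦ (F ∘ Λ⁻¹) * exp (n β ∘ Λ⁻¹)` is a linear isomorphism from `RR τ n` onto `TN L χ n` (the inverse of
`G` is `F x = G (Λ x) exp (- n β x)`: then `F (Λ.symm v) exp (n β (Λ.symm v)) = G v`, so
`F ∈ RR τ n` by the equivalence). So dimensions agree (DIM). (1) it is multiplicative: the product of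
the images of `F ∈ RR τ a` and `F' ∈ RR τ b` is the image of `F F'` (orders add up). So MUL
(`4 e = 2 (2 e)`) gives `TN (2 (2e)) ≤ TN (2e) * TN (2e)`: an element of `TN (4e)` is the image of
`F ∈ RR τ (4e) ≤ RR τ (2e) * RR τ (2e)`, a sum of products (`Submodule.mul_induction_on`).
(2) no base points: RML (2) (for 2 e and for 2), the exponential is not 0. -/
def TrfStmt : Prop :=
  ∀ (g : ℕ) (τ : Matrix (Fin g) (Fin g) ℂ), Siegel τ →
    ∀ (Λ : (Fin g → ℂ) ≃L[ℂ] EuclideanSpace ℂ (Fin g))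
      (L : AddSubgroup (EuclideanSpace ℂ (Fin g))) (χ : EuclideanSpace ℂ (Fin g) → ℂ)
      (β : (Fin g → ℂ) → ℂ), Differentiable ℂ β →
      (∀ (n : ℕ) (F : (Fin g → ℂ) → ℂ),
        F ∈ RR τ n ↔ (fun v => F (Λ.symm v) * Complex.exp ((n : ℂ) * β (Λ.symm v))) ∈ TN L χ n) →
      (∀ e : ℕ, Even e → 2 ≤ e →
        TN L χ (2 * (2 * e)) ≤ TN L χ (2 * e) * TN L χ (2 * e)) ∧
      (∀ e : ℕ, Even e → 2 ≤ e → ∀ x, ∃ q ∈ TN L χ e, q x ≠ 0) ∧
      (∀ n, 1 ≤ n → Module.Finite ℂ ↥(TN L χ n) ∧ Module.finrank ℂ ↥(TN L χ n) ≤ n ^ g)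

/-- **Row ZET** (the zero estimate for theta functions; uses GAU, TRF, AZE). PROOF. B from AZE (g, D = 2 e).
GAU: Λ, L, χ, β; TRF. `Γ = {v : there is j ∈ ℤ with InLat τ (Λ.symm v - j • z)}`, a subgroup containing
L. `F' v = F (Λ.symm v) exp (D β (Λ.symm v)) ∈ TN D` vanishes on Γ (periods of F: `F (j z + ω) =
exp(..) F (j z) = 0`) and is not identically 0. `finrank (EuclideanSpace ℂ (Fin g)) = g`. AZE gives W';
`W = W'.comap Λ` (the subspace `{x : Λ x ∈ W'}`). `W ≠ ⊤`. SubAV: image of real spans under Λ⁻¹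
(`Submodule.map_span`). M: for the element `Λ z ∈ Γ` there are `M` and `u' ∈ W'` with
`M • Λ z - u' ∈ L`: `u = Λ.symm u'`. k: let v be such that `fderiv f 0 v = 0` for all `f ∈ RR τ k` with
`f (j z + w) = 0` for all integers j and w ∈ W. Let `f' ∈ TN k` vanish on `Γ + W'`; `f' = (f ∘ Λ⁻¹) *
exp (k β ∘ Λ⁻¹)` with `f x = f' (Λ x) exp (- k β x)`, `f ∈ RR τ k`, `f (j z + w) = 0`
(`Λ (j z) ∈ Γ`, `Λ w ∈ W'`), `f 0 = 0`, so `fderiv f' 0 (Λ v) = fderiv f 0 v * exp (k β 0) = 0`; AZE: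
`Λ v ∈ W'`. -/
def ZetStmt : Prop :=
  ∀ (g e : ℕ), Even e → 2 ≤ e → ∃ B : ℕ, ∀ (τ : Matrix (Fin g) (Fin g) ℂ), Siegel τ →
    ∀ (z : Fin g → ℂ), ∀ F ∈ RR τ (2 * e), (∀ j : ℤ, F (j • z) = 0) → (∃ x, F x ≠ 0) →
    ∃ W : Submodule ℂ (Fin g → ℂ), W ≠ ⊤ ∧ SubAV τ W ∧
      (∃ M : ℕ, 1 ≤ M ∧ M ≤ B ∧ ∃ u ∈ W, InLat τ (M • z - u)) ∧
      ∃ k : ℕ, 1 ≤ k ∧ k ≤ B ∧ ∀ v : Fin g → ℂ,
        (∀ f ∈ RR τ k, (∀ j : ℤ, ∀ w ∈ W, f (j • z + w) = 0) → fderiv ℂ f 0 v = 0) → v ∈ W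

/-- **The theorem.** Notation of SZG: K a number field of degree at most d, `φ : K → ℂ`, τ Siegel, z a
torsion point of `C^g / (Z^g + tau Z^g)` such that z and all l-division points are rational (theta
coordinates `x i` of the doubles of the points `k z + (p + tau q)/l`); S a finite set of finite
places, not over 2, with weights `e_v >= 1`, such that z is in the identity component at v and some
division point of order l is congruent to 0 modulo `v ^ e_v`; the height of the origin is at most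
`σ * sum_S e_v log N v`. Then the order of z is at most B, or a multiple `M z`, `M <= B`, is in an
abelian subvariety `0 <> W <> C^g` of bounded degree: W is the tangent space at 0 of the set of the
common zeros of the theta functions of order `k <= B` which vanish on `Z z + W`. -/
def SzsStatement : Prop :=
  ∀ (g : ℕ) (σ : ℝ), ∃ l : ℕ, l.Prime ∧ Odd l ∧ ∀ d : ℕ, ∃ B : ℕ,
    ∀ (K : Type) [Field K] [NumberField K], Module.finrank ℚ K ≤ d →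
    ∀ (φ : K →+* ℂ) (τ : Matrix (Fin g) (Fin g) ℂ), Siegel τ →
    ∀ z : Fin g → ℂ, (∃ N : ℕ, 0 < N ∧ InLat τ (fun i => (N : ℂ) * z i)) →
    ∀ x : SZG.Idx g → SZG.Ch g × SZG.Ch g → K, (∀ i, x i ≠ 0) →
    (∀ i, ∃ μ : ℂ, ∀ ab, φ (x i ab) = μ * Vab τ ab.1 ab.2 (SZG.gam τ z l i)) →
    ∀ (S : Finset (NumberField.FinitePlace K)) (ev : NumberField.FinitePlace K → ℕ),
    (∀ v ∈ S, v.val 2 = 1 ∧ 1 ≤ ev v ∧ (∀ k : ℤ, SZG.CM v.val (x (k, 0, 0)) (x 0)) ∧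
      ∃ p q : Fin g → ℤ, (∃ i, ¬ (l : ℤ) ∣ p i ∨ ¬ (l : ℤ) ∣ q i) ∧
        ∀ u : ℤ, SZG.TC v.val ((qv v ^ ev v)⁻¹) (x (u • ((0, p, q) : SZG.Idx g))) (x 0)) →
    Real.log (Height.mulHeight (x 0)) ≤ σ * ∑ v ∈ S, (ev v : ℝ) * lN v →
    (∃ M : ℕ, 1 ≤ M ∧ M ≤ B ∧ InLat τ (fun i => (M : ℂ) * z i)) ∨
    ∃ W : Submodule ℂ (Fin g → ℂ), W ≠ ⊥ ∧ W ≠ ⊤ ∧ SubAV τ W ∧
      (∃ M : ℕ, 1 ≤ M ∧ M ≤ B ∧ ∃ u ∈ W, InLat τ (M • z - u)) ∧
      ∃ k : ℕ, 1 ≤ k ∧ k ≤ B ∧ ∀ v : Fin g → ℂ,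
        (∀ f ∈ RR τ k, (∀ j : ℤ, ∀ w ∈ W, f (j • z + w) = 0) → fderiv ℂ f 0 v = 0) → v ∈ W

/-- **Row SZS** (assembly; uses SZG.SzgStatement, ZET). PROOF. n from SZG (g, σ). Choose an odd prime
`l > n + 2` (`Nat.exists_infinite_primes`). B1 from SZG (l, d), B2 from ZET for `e = 4 l^2` (even,
`2 e = 8 l^2`); `B = max (max B1 B2) 1`. g = 0: every vector is in the lattice, M = 1. g >= 1: SZG: the
first alternative is fine. Otherwise `2^g l^(2g) - n l^(2g-1) >= 1` (`2^g l > n`), take `F = F_0`: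
linear independence gives `F <> 0`; `F ∈ RR τ (8 l^2)` (the same period formula, `pr τ P Q`;
`((8 l^2 : ℕ) : ℂ) = 8 l^2`); `F (k z) = 0` for naturals k, and for negative integers j: with N z in the
lattice, `j z = (j + N t) z - t (N z)` with `j + N t >= 0`, periods. ZET gives W. If `W = ⊥` then u = 0
and `M z` is in the lattice: first alternative (`M • z = fun i => M * z i`). Otherwise the second. -/
def SzsStmt : Prop := SzsStatement

end Pool.Agent.ZES
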