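import Pool.Agent.SZG.StmtsF

/-!
ZES (MP_160b6c_nt): an elementary uniform zero estimate for theta functions. Definitions.
Part 1: abstract spaces of entire functions on a finite-dimensional complex space `V` (blocks G, C).
Part 2: the spaces `TT L κ a` of quasi-periodic functions for a lattice in a complex inner product
space (blocks L, B). Part 3: theta functions of order `n` of a Siegel matrix (blocks F, K, Z).
-/

namespace Pool.Agent.ZES

open scoped BigOperators InnerProductSpace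
open Pool.Agent.THS

/-! ### Part 1 -/

/-- The ideal of all functions which vanish on the set `G`. -/
def VanI {V : Type} (G : Set V) : Ideal (V → ℂ) where
  carrier := {f | ∀ x ∈ G, f x = 0}
  add_mem' := by
    intro a b ha hb x hx
    show a x + b x = 0
    rw [ha x hx, hb x hx, add_zero]
  zero_mem' := by
    intro x _
    rfl
  smul_mem' := by
    intro c a ha x hx
    show c x * a x = 0
    rw [ha x hx, mul_zero]

/-- The same as a complex subspace of `V → ℂ`. -/
def Van {V : Type} (G : Set V) : Submodule ℂ (V → ℂ) := (VanI G).restrictScalars ℂ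

/-- Spaces of entire functions with an addition law: finite-dimensional, even, without base point,
`p (x + y) q (x - y)` is (as a function of `x`) in `E * E`. -/
structure ES {V : Type} [NormedAddCommGroup V] [NormedSpace ℂ V] (E : Submodule ℂ (V → ℂ)) :
    Prop where
  fin : Module.Finite ℂ E
  dif : ∀ f ∈ E, Differentiable ℂ f
  addl : ∀ p ∈ E, ∀ q ∈ E, ∀ y : V, (fun x => p (x + y) * q (x - y)) ∈ E * E
  neg : ∀ f ∈ E, (fun x => f (-x)) ∈ E
  nbp : ∀ x : V, ∃ q ∈ E, q x ≠ 0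

/-- Stability: the functions in `E ^ (2 m)` vanishing on `G` are generated by those in `E ^ m`. -/
def Stab {V : Type} (E : Submodule ℂ (V → ℂ)) (G : Set V) (m : ℕ) : Prop :=
  E ^ (2 * m) ⊓ Van G ≤ (E ^ m ⊓ Van G) * E ^ m

/-- The common zeros of the functions in `E ^ m` which vanish on `G`. -/
def Zr {V : Type} (E : Submodule ℂ (V → ℂ)) (G : Set V) (m : ℕ) : Set V :=
  {x | ∀ f ∈ E ^ m ⊓ Van G, f x = 0}

/-! ### Part 2 -/

/-- The factor of automorphy `exp (a (<ω, x> + |ω|^2 / 2))` (`inner ℂ ω x` is linear in `x`). -/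
noncomputable def al {V : Type} [NormedAddCommGroup V] [InnerProductSpace ℂ V] (a : ℝ) (ω x : V) :
    ℂ :=
  Complex.exp ((a : ℂ) * (inner ℂ ω x + ((‖ω‖ ^ 2 / 2 : ℝ) : ℂ)))

/-- A lattice `L` with a semicharacter `χ`. -/
structure LAT {V : Type} [NormedAddCommGroup V] [InnerProductSpace ℂ V] (L : AddSubgroup V)
    (χ : V → ℂ) : Prop where
  disc : DiscreteTopology L
  span : Submodule.span ℝ (L : Set V) = ⊤
  sq : ∀ ω ∈ L, χ ω ^ 2 = 1
  mul : ∀ ω ∈ L, ∀ η ∈ L,
    χ (ω + η) = χ ω * χ η * Complex.exp (Real.pi * Complex.I * ((inner ℂ ω η).im : ℂ))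

/-- Entire functions with `F (x + ω) = κ ω * al a ω x * F x` for `ω ∈ L`. -/
def TT {V : Type} [NormedAddCommGroup V] [InnerProductSpace ℂ V] (L : AddSubgroup V) (κ : V → ℂ)
    (a : ℝ) : Submodule ℂ (V → ℂ) where
  carrier := {F | Differentiable ℂ F ∧ ∀ ω ∈ L, ∀ x : V, F (x + ω) = κ ω * al a ω x * F x}
  add_mem' := by
    rintro F G ⟨h1, h2⟩ ⟨h3, h4⟩
    refine ⟨h1.add h3, fun ω hω x => ?_⟩
    show F (x + ω) + G (x + ω) = κ ω * al a ω x * (F x + G x)
    rw [h2 ω hω x, h4 ω hω x]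
    ring
  zero_mem' := by
    refine ⟨differentiable_const 0, fun ω _ x => ?_⟩
    show (0 : ℂ) = κ ω * al a ω x * 0
    ring
  smul_mem' := by
    rintro c F ⟨h1, h2⟩
    refine ⟨h1.const_smul c, fun ω hω x => ?_⟩
    show c * F (x + ω) = κ ω * al a ω x * (c * F x)
    rw [h2 ω hω x]
    ring

/-- Theta functions of order `n` for the lattice `L` with semicharacter `χ`. -/
noncomputable def TN {V : Type} [NormedAddCommGroup V] [InnerProductSpace ℂ V] (L : AddSubgroup V)
    (χ : V → ℂ) (n : ℕ) : Submodule ℂ (V → ℂ) :=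
  TT L (fun ω => χ ω ^ n) (Real.pi * (n : ℝ))

/-! ### Part 3 -/

/-- The period `p + tau q`. -/
noncomputable def pr {g : ℕ} (τ : Matrix (Fin g) (Fin g) ℂ) (p q : Fin g → ℤ) : Fin g → ℂ :=
  fun i => (p i : ℂ) + ∑ j, τ i j * (q j : ℂ)

/-- Theta functions of order `n` (classical form): entire functions with
`F (x + p + tau q) = exp (- pi i n q.tau q - 2 pi i n q.x) F x`. -/
def RR {g : ℕ} (τ : Matrix (Fin g) (Fin g) ℂ) (n : ℕ) : Submodule ℂ ((Fin g → ℂ) → ℂ) where
  carrier := {F | Differentiable ℂ F ∧ ∀ (x : Fin g → ℂ) (p q : Fin g → ℤ),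
    F (x + pr τ p q) = Complex.exp (-(Real.pi * Complex.I * (n : ℂ)
        * ∑ i, ∑ j, (q i : ℂ) * τ i j * (q j : ℂ))
      - 2 * Real.pi * Complex.I * (n : ℂ) * ∑ i, (q i : ℂ) * x i) * F x}
  add_mem' := by
    rintro F G ⟨h1, h2⟩ ⟨h3, h4⟩
    refine ⟨h1.add h3, fun x p q => ?_⟩
    show F (x + pr τ p q) + G (x + pr τ p q) = _ * (F x + G x)
    rw [h2 x p q, h4 x p q]
    ring
  zero_mem' := by
    refine ⟨differentiable_const 0, fun x p q => ?_⟩
    show (0 : ℂ) = _ * 0
    ring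
  smul_mem' := by
    rintro c F ⟨h1, h2⟩
    refine ⟨h1.const_smul c, fun x p q => ?_⟩
    show c * F (x + pr τ p q) = _ * (c * F x)
    rw [h2 x p q]
    ring

/-- The standard theta functions of order `n`:
`sum over m in Z^g + j/n of exp (pi i n m.tau m + 2 pi i n m.x)`. -/
noncomputable def vt {g : ℕ} (τ : Matrix (Fin g) (Fin g) ℂ) (n : ℕ) (j : Fin g → ℤ)
    (x : Fin g → ℂ) : ℂ :=
  ths ((n : ℂ) • τ) (fun i => (j i : ℝ) / (n : ℝ)) (fun i => (n : ℂ) * x i)

/-- Entire functions with periods `Z^g`. -/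
def PE {g : ℕ} (F : (Fin g → ℂ) → ℂ) : Prop :=
  Differentiable ℂ F ∧ ∀ (x : Fin g → ℂ) (p : Fin g → ℤ), F (fun i => x i + (p i : ℂ)) = F x

/-- The `k`-th Fourier coefficient of the restriction to the real vectors. -/
noncomputable def fc {g : ℕ} (F : (Fin g → ℂ) → ℂ) (k : Fin g → ℤ) : ℂ :=
  ∫ t in Set.Icc (0 : Fin g → ℝ) 1,
    Complex.exp (-(2 * Real.pi * Complex.I * ∑ i, (k i : ℂ) * ((t i : ℝ) : ℂ)))
      * F (fun i => ((t i : ℝ) : ℂ))

/-- `W` is an abelian subvariety (as a subspace): it is spanned over the reals by the periods which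
it contains. -/
def SubAV {g : ℕ} (τ : Matrix (Fin g) (Fin g) ℂ) (W : Submodule ℂ (Fin g → ℂ)) : Prop :=
  ∀ w ∈ W, w ∈ Submodule.span ℝ {u : Fin g → ℂ | u ∈ W ∧ InLat τ u}

/-- The complex torus `C^g / (Z^g + tau Z^g)` is simple. -/
def SimpleT {g : ℕ} (τ : Matrix (Fin g) (Fin g) ℂ) : Prop :=
  ∀ W : Submodule ℂ (Fin g → ℂ), SubAV τ W → W = ⊥ ∨ W = ⊤

end Pool.Agent.ZES
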