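import Pool.Agent.ZES.StmtsL

/-!
ZES, block B: Hefer decomposition and Poincare series. `V` is a finite-dimensional complex inner
product space, `W` a subspace, `x_W = W.starProjection x`, `x_C = Wᗮ.starProjection x`, so
`x = x_W + x_C`, `|x|^2 = |x_W|^2 + |x_C|^2`. `<u, x> = inner ℂ u x` is conjugate linear in u and
linear in x. Complete proofs in the docstrings.
-/

namespace Pool.Agent.ZES

open scoped BigOperators InnerProductSpace

/-- Integrated derivative in the direction `v` along the segment from `x_W` to `x`. -/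
noncomputable def hh {V : Type} [NormedAddCommGroup V] [InnerProductSpace ℂ V]
    [FiniteDimensional ℂ V] (f : V → ℂ) (W : Submodule ℂ V) (v x : V) : ℂ :=
  ∫ t in (0 : ℝ)..1, fderiv ℂ f (W.starProjection x + (t : ℂ) • Wᗮ.starProjection x) v

/-- **Row ALN** (factor of automorphy). PROOF. (1) the real part of `a (<ω,x> + |ω|^2/2)` is
`(a/2)(2 Re<ω,x> + |ω|^2) = (a/2)(|x+ω|^2 - |x|^2)` (`norm_add_sq`, `Complex.norm_exp`). (2), (3), (4):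
exponentials. (5) `a(<ω,x+η> + |ω|^2/2 + <η,x> + |η|^2/2)` against
`a(<ω+η,x> + (|ω|^2 + |η|^2)/2 + Re<ω,η>)`: the difference is `a (<ω,η> - Re<ω,η>) = a i Im<ω,η>`. -/
def AlnStmt : Prop :=
  ∀ (V : Type) [NormedAddCommGroup V] [InnerProductSpace ℂ V] (a b : ℝ) (ω η x y : V),
    ‖al a ω x‖ = Real.exp (a / 2 * (‖x + ω‖ ^ 2 - ‖x‖ ^ 2)) ∧
    al a ω (x + y) = al a ω x * Complex.exp ((a : ℂ) * inner ℂ ω y) ∧
    al (a + b) ω x = al a ω x * al b ω x ∧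
    al a (0 : V) x = 1 ∧
    al a ω (x + η) * al a η x
      = al a (ω + η) x * Complex.exp ((a : ℂ) * Complex.I * ((inner ℂ ω η).im : ℂ))

/-- **Row CAU** (Cauchy estimate). PROOF. v = 0 trivial. Otherwise `h ζ = f (x + ζ • v)`, entire, and
`‖h ζ‖ <= C` for `‖ζ‖ = 1/‖v‖`; Cauchy's estimate for h with radius `1/‖v‖`
(`Complex.norm_deriv_le_of_forall_mem_sphere_norm_le`): `‖h' 0‖ <= C ‖v‖`, and `h' 0 = fderiv f x v`. -/
def CauStmt : Prop :=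
  ∀ (V : Type) [NormedAddCommGroup V] [NormedSpace ℂ V] (f : V → ℂ), Differentiable ℂ f →
    ∀ (x : V) (C : ℝ), (∀ y, ‖y - x‖ ≤ 1 → ‖f y‖ ≤ C) → ∀ v : V, ‖fderiv ℂ f x v‖ ≤ C * ‖v‖

/-- **Row HOL** (locally uniformly summable series of entire functions; uses CAU). PROOF.
`hasFDerivAt_tsum_of_isPreconnected` (or `hasFDerivAt_tsum`) on the ball of radius R around 0: for
`‖x‖ < R` the derivatives satisfy `‖fderiv (f i) x‖ <= u i` (CAU with the bound `u = u_(R+1)` on the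
ball of radius R + 1: `‖fderiv f x v‖ <= u i ‖v‖`, `ContinuousLinearMap.opNorm_le_bound`), which is
summable; the series converges at x = 0. -/
def HolStmt : Prop :=
  ∀ (V ι : Type) [NormedAddCommGroup V] [NormedSpace ℂ V] (f : ι → V → ℂ),
    (∀ i, Differentiable ℂ (f i)) →
    (∀ R : ℝ, ∃ u : ι → ℝ, Summable u ∧ ∀ i x, ‖x‖ ≤ R → ‖f i x‖ ≤ u i) →
    Differentiable ℂ (fun x => ∑' i, f i x)

/-- **Row DFD** (derivatives of entire functions are entire; uses CAU, HOL). PROOF. Fix v. For n >= 1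
let `g_n x = (f (x + v/n) - f x) * n`. For `‖x‖ <= R`: the function `h ζ = f (x + ζ v)` of one variable is
entire and bounded by some C on `‖ζ‖ <= 2` uniformly in `‖x‖ <= R` (continuity on a compact ball; V is
finite-dimensional), so `‖g_n x - h' 0‖ <= C'/n` (second derivative estimate:
`h(s) - h(0) - s h'(0)` = `s^2` times a function bounded by C'; or Taylor
`Complex.norm_..`, or the mean value inequality for h' with Cauchy). So `fderiv f x v` is the locally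
uniform limit of the entire functions g_n. Telescoping `g_1 + sum (g_(2^(k+1)) - g_(2^k))` with
`‖g_(2^(k+1)) - g_(2^k)‖ <= 2 C'/2^k` on the ball, HOL gives the claim. (Another way: the Cauchy
integral `fderiv f x v = (1/2 pi i) ∮ f (x + ζ v)/ζ^2 dζ` and differentiation under the integral.) -/
def DfdStmt : Prop :=
  ∀ (V : Type) [NormedAddCommGroup V] [NormedSpace ℂ V] [FiniteDimensional ℂ V] (f : V → ℂ),
    Differentiable ℂ f → ∀ v : V, Differentiable ℂ (fun x => fderiv ℂ f x v)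

/-- **Row PAR** (parameter integrals; uses CAU). PROOF. `hasFDerivAt_integral_of_dominated_of_fderiv_le`
(interval version `intervalIntegral.hasFDerivAt_integral_of_dominated_of_fderiv_le`) on the ball of
radius 1 around x0: the function `x ↦ g (A x + t • B x)` has the derivative
`fderiv g (A x + t • B x) ∘ (A + t • B)`, bounded for `‖x - x0‖ <= 1`, `0 <= t <= 1` (CAU: g is bounded
on bounded sets, finite dimension); measurability in t: continuity of `t ↦ g (A x + t • B x)`; the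
derivative is a limit of difference quotients, or continuous because `x ↦ fderiv g x` is locally
Lipschitz.. (`measurable_fderiv`, `aestronglyMeasurable`). -/
def ParStmt : Prop :=
  ∀ (V : Type) [NormedAddCommGroup V] [NormedSpace ℂ V] [FiniteDimensional ℂ V] (g : V → ℂ),
    Differentiable ℂ g → ∀ A B : V →L[ℂ] V,
    Differentiable ℂ (fun x => ∫ t in (0 : ℝ)..1, g (A x + (t : ℂ) • B x))

/-- **Row HFA** (Hefer decomposition, one function; uses DFD, PAR). PROOF. (1) differentiable: PAR with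
`g = fderiv f · v` (DFD), A, B the two projections. (2) additive and homogeneous in v: linearity of
`fderiv f y` and of the integral (integrands are continuous in t, DFD). (3) at x = 0 the integrand is
constant. (4) `d/dt f (x_W + t x_C) = fderiv f (x_W + t x_C) x_C`, fundamental theorem of calculus
(`intervalIntegral.integral_eq_sub_of_hasDerivAt`): the integral is `f (x_W + x_C) - f x_W = f x`
because `f = 0` on W. -/
def HfaStmt : Prop :=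
  ∀ (V : Type) [NormedAddCommGroup V] [InnerProductSpace ℂ V] [FiniteDimensional ℂ V]
    (W : Submodule ℂ V) (f : V → ℂ), Differentiable ℂ f → (∀ w ∈ W, f w = 0) →
    (∀ v : V, Differentiable ℂ (hh f W v)) ∧
    (∀ (u v x : V) (c : ℂ), hh f W (u + v) x = hh f W u x + hh f W v x ∧
      hh f W (c • v) x = c * hh f W v x) ∧
    (∀ v : V, hh f W v 0 = fderiv ℂ f 0 v) ∧
    ∀ x : V, hh f W (Wᗮ.starProjection x) x = f x

/-- **Row HFB** (growth and periods; uses ALN, CAU, DFD). PROOF. (1) for `0 <= t <= 1`,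
`y = x_W + t x_C`, `‖y‖ <= ‖x‖` (Pythagoras); CAU at y with the constant
`C exp (a/2 (‖x‖ + 1)^2)`; integrate (`intervalIntegral.norm_integral_le_of_norm_le_const`):
`‖hh f W v x‖ <= C exp(a/2) exp(a/2 ‖x‖^2 + a ‖x‖) ‖v‖`. (2) `(x + ω)_W = x_W + ω`,
`(x + ω)_C = x_C`. Differentiate `f (y + ω) = k * al a ω y * f y` in y in the direction `v ∈ Wᗮ`:
`fderiv (al a ω) y v = a <ω, v> al a ω y = 0`, so
`fderiv f (y + ω) v = k * al a ω y * fderiv f y v`; and `al a ω (x_W + t x_C) = al a ω x` because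
`<ω, x_C> = 0`. -/
def HfbStmt : Prop :=
  ∀ (V : Type) [NormedAddCommGroup V] [InnerProductSpace ℂ V] [FiniteDimensional ℂ V]
    (W : Submodule ℂ V) (f : V → ℂ) (a : ℝ), 0 ≤ a → Differentiable ℂ f →
    (∀ C : ℝ, (∀ x, ‖f x‖ ≤ C * Real.exp (a / 2 * ‖x‖ ^ 2)) →
      ∀ v x, ‖hh f W v x‖ ≤ C * Real.exp (a / 2) * Real.exp (a / 2 * ‖x‖ ^ 2 + a * ‖x‖) * ‖v‖) ∧
    ∀ ω ∈ W, ∀ k : ℂ, (∀ x, f (x + ω) = k * al a ω x * f x) →
      ∀ v ∈ Wᗮ, ∀ x, hh f W v (x + ω) = k * al a ω x * hh f W v x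

/-- **Row HDT** (the determinant; uses ALN, HFA, HFB). PROOF. Let b be an orthonormal basis of `Wᗮ`
indexed by `Fin r` (`stdOrthonormalBasis ℂ Wᗮ`, `r = finrank ℂ Wᗮ`), `x_C = sum_l c_l(x) b_l`,
`c_l(x) = <b_l, x>`. `φ x = det (hh (G i) W (b l) x)_(i,l)`. Entire (HFA, the determinant is a
polynomial). `φ 0 = det (fderiv (G i) 0 (b l)) <> 0`: otherwise there is a nonzero vector c with
`sum_l c_l fderiv (G i) 0 (b l) = 0` for all i (`Matrix.exists_mulVec_eq_zero_iff`), so for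
`v = sum c_l b_l ∈ Wᗮ`, v <> 0, all `fderiv (G i) 0 v = 0`. If `x ∉ W`, `(c_l(x))_l <> 0` and
`G i x = sum_l c_l(x) hh (G i) W (b l) x` (HFA); if all `G i x = 0` the determinant vanishes. Periods:
every entry gets the factor `κ ω * al a ω x` (HFB), so φ gets its r-th power, `al a ω x ^ r =
al (r a) ω x`. Growth: the determinant is a sum of r! products of r entries: HFB, constant c = r a. -/
def HdtStmt : Prop :=
  ∀ (V : Type) [NormedAddCommGroup V] [InnerProductSpace ℂ V] [FiniteDimensional ℂ V]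
    (W : Submodule ℂ V) (L : AddSubgroup V) (κ : V → ℂ) (a C : ℝ) (r : ℕ),
    r = Module.finrank ℂ ↥Wᗮ → 0 ≤ a → ∀ G : Fin r → V → ℂ, (∀ i, Differentiable ℂ (G i)) →
    (∀ i, ∀ w ∈ W, G i w = 0) →
    (∀ i, ∀ ω ∈ L, ω ∈ W → ∀ x, G i (x + ω) = κ ω * al a ω x * G i x) →
    (∀ i x, ‖G i x‖ ≤ C * Real.exp (a / 2 * ‖x‖ ^ 2)) →
    (∀ v ∈ Wᗮ, (∀ i, fderiv ℂ (G i) 0 v = 0) → v = 0) →
    ∃ (φ : V → ℂ) (C' c : ℝ), Differentiable ℂ φ ∧ φ 0 ≠ 0 ∧ 0 ≤ c ∧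
      (∀ x, x ∉ W → (∀ i, G i x = 0) → φ x = 0) ∧
      (∀ ω ∈ L, ω ∈ W → ∀ x, φ (x + ω) = κ ω ^ r * al (r * a) ω x * φ x) ∧
      ∀ x, ‖φ x‖ ≤ C' * Real.exp (r * a / 2 * ‖x‖ ^ 2 + c * ‖x‖)

/-- **Row BNW** (growth of theta functions; uses ALN, CPT). PROOF. `‖χ ω‖ = 1` on L (`χ ω ^ 2 = 1`).
CPT for `W = ⊤` gives R; for x choose `ω ∈ L` with `‖x - ω‖ <= R`, `y = x - ω`:
`‖F x‖ = ‖al (πn) ω y‖ ‖F y‖ = exp ((πn/2)(‖x‖^2 - ‖y‖^2)) ‖F y‖ <= exp ((πn/2) ‖x‖^2) sup_(‖y‖ <= R) ‖F y‖`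
(compact ball, F continuous). -/
def BnwStmt : Prop :=
  ∀ (V : Type) [NormedAddCommGroup V] [InnerProductSpace ℂ V] [FiniteDimensional ℂ V]
    (L : AddSubgroup V) (χ : V → ℂ), LAT L χ → ∀ (n : ℕ), ∀ F ∈ TN L χ n,
    ∃ C : ℝ, 0 ≤ C ∧ ∀ x, ‖F x‖ ≤ C * Real.exp (Real.pi * n / 2 * ‖x‖ ^ 2)

/-- **Row TRN** (translation; uses ALN, BNW). PROOF. `G x = f (x + lam) * exp (- π n <lam, x>)`. Periods:
`G (x + ω) = χ(ω)^n al ω (x + lam) f (x + lam) exp(- π n <lam, x>) exp(- π n <lam, ω>)` and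
`al ω (x + lam) = al ω x * exp (π n <ω, lam>)` (ALN). Growth: BNW and
`‖x + lam‖^2 = ‖x‖^2 + 2 Re <lam, x> + ‖lam‖^2`. Derivative at 0: product rule, `f lam = 0`. -/
def TrnStmt : Prop :=
  ∀ (V : Type) [NormedAddCommGroup V] [InnerProductSpace ℂ V] [FiniteDimensional ℂ V]
    (L : AddSubgroup V) (χ : V → ℂ), LAT L χ → ∀ (n : ℕ), ∀ f ∈ TN L χ n, ∀ lam : V,
    ∃ (G : V → ℂ) (C : ℝ), Differentiable ℂ G ∧ 0 ≤ C ∧
      (∀ x, G x = 0 ↔ f (x + lam) = 0) ∧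
      (∀ ω ∈ L, ∀ x, G (x + ω) = (χ ω ^ n
        * Complex.exp (Real.pi * n * (inner ℂ ω lam - inner ℂ lam ω))) * al (Real.pi * n) ω x
          * G x) ∧
      (∀ x, ‖G x‖ ≤ C * Real.exp (Real.pi * n / 2 * ‖x‖ ^ 2)) ∧
      (f lam = 0 → ∀ v, fderiv ℂ G 0 v = fderiv ℂ f lam v)

/-- **Row PSI** (the factor in the direction W; uses TRN). PROOF. TRN for t and n = 2 gives G with
`G 0 <> 0`. `ψ x = G (x_W)`, a composition with a linear map. For `ω ∈ L ∩ W`: `(x+ω)_W = x_W + ω` and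
`al (2π) ω (x_W) = al (2π) ω x` because `<ω, x> = <ω, x_W>`. Growth: TRN at x_W. -/
def PsiStmt : Prop :=
  ∀ (V : Type) [NormedAddCommGroup V] [InnerProductSpace ℂ V] [FiniteDimensional ℂ V]
    (L : AddSubgroup V) (χ : V → ℂ), LAT L χ → ∀ (W : Submodule ℂ V), ∀ t ∈ TN L χ 2, ∀ lam : V,
    t lam ≠ 0 → ∃ (ψ : V → ℂ) (C : ℝ), Differentiable ℂ ψ ∧ 0 ≤ C ∧ ψ 0 ≠ 0 ∧
      (∀ ω ∈ L, ω ∈ W → ∀ x, ψ (x + ω) = (χ ω ^ 2
        * Complex.exp (Real.pi * 2 * (inner ℂ ω lam - inner ℂ lam ω))) * al (Real.pi * 2) ω x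
          * ψ x) ∧
      ∀ x, ‖ψ x‖ ≤ C * Real.exp (Real.pi * ‖W.starProjection x‖ ^ 2)

/-- **Row PHI** (the germ of the Poincare series; uses ALN, CPT, HDT, TRN, PSI). PROOF. Put
`n = r m' + 2`. TRN for every `f i` (order m', point lam): G i, vanishing on W because
`f i (lam + w) = 0`, Jacobian condition at 0. HDT with `a = π m'`,
`κ ω = χ ω ^ m' * exp (π m' (<ω,lam> - <lam,ω>))`: φ. PSI: ψ. `Φ = φ * ψ`: `Φ 0 <> 0`, `Φ x = 0` if
`x ∉ W` and all `f i (x + lam) = 0`, and for `ω ∈ L ∩ W`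
`Φ (x + ω) = χ ω ^ n * exp (π n (<ω,lam> - <lam,ω>)) * al (π n) ω x * Φ x` (ALN).
GROWTH of Φ: let R be as in CPT for W; given x choose `ω ∈ L ∩ W`, `‖x_W - ω‖ <= R`, `y = x - ω`:
`y_C = x_C`, `‖y_W‖ <= R`, `‖Φ x‖ = exp ((πn/2)(‖x‖^2 - ‖y‖^2)) ‖φ y‖ ‖ψ y‖
<= C exp ((πn/2)(‖x‖^2 - ‖y‖^2) + (r π m'/2) ‖y‖^2 + c ‖y‖ + π ‖y_W‖^2)
= C exp ((πn/2) ‖x‖^2 - π ‖y‖^2 + π ‖y_W‖^2 + c ‖y‖) <= C' exp ((πn/2) ‖x‖^2 - π ‖x_C‖^2 + c ‖x_C‖)`
(the exponential factor exp(π n (<ω,lam> - <lam,ω>)) has absolute value 1: purely imaginary exponent).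
Put `P x = Φ (x - lam) * exp (π n <lam, x>)`. Periods: `al (πn) ω (x - lam) = al (πn) ω x *
exp (- π n <ω, lam>)`, all factors cancel and `P (x + ω) = χ ω ^ n * al (π n) ω x * P x`. Growth:
`(πn/2) ‖x - lam‖^2 + π n Re <lam, x> = (πn/2)(‖x‖^2 + ‖lam‖^2)`, and
`- π s'^2 + c s' <= - s^2 + C''` for `s' = ‖x_C - lam_C‖ >= s - ‖lam‖`, `s = ‖x_C‖` (π > 3,
`s^2 <= 2 s'^2 + 2 ‖lam‖^2`). `P lam = Φ 0 * .. <> 0`. -/
def PhiStmt : Prop :=
  ∀ (V : Type) [NormedAddCommGroup V] [InnerProductSpace ℂ V] [FiniteDimensional ℂ V]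
    (L : AddSubgroup V) (χ : V → ℂ), LAT L χ → ∀ (W : Submodule ℂ V), AVW L W → ∀ (m' r : ℕ),
    r = Module.finrank ℂ ↥Wᗮ → ∀ (lam : V) (f : Fin r → V → ℂ), (∀ i, f i ∈ TN L χ m') →
    (∀ i, ∀ w ∈ W, f i (lam + w) = 0) →
    (∀ v ∈ Wᗮ, (∀ i, fderiv ℂ (f i) lam v = 0) → v = 0) →
    (∃ t ∈ TN L χ 2, t lam ≠ 0) →
    ∃ (P : V → ℂ) (C : ℝ), Differentiable ℂ P ∧ P lam ≠ 0 ∧
      (∀ x, x - lam ∉ W → (∀ i, f i x = 0) → P x = 0) ∧
      (∀ ω ∈ L, ω ∈ W → ∀ x, P (x + ω)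
        = χ ω ^ (r * m' + 2) * al (Real.pi * ((r * m' + 2 : ℕ) : ℝ)) ω x * P x) ∧
      ∀ x, ‖P x‖ ≤ C * Real.exp (Real.pi * ((r * m' + 2 : ℕ) : ℝ) / 2 * ‖x‖ ^ 2
        - ‖Wᗮ.starProjection x‖ ^ 2)

/-- **Row POI** (Poincare series; uses ALN, GSM, HOL). PROOF. Choose for every `ν ∈ LC L W` an
`s(ν) ∈ L` with `s(ν)_C = ν`. `α_ω(x) = χ ω ^ n * al (π n) ω x` (never zero, cocycle
`α_(ω+η)(x) = α_ω(x+η) α_η(x)` for `ω, η ∈ L` by `LAT.mul` and ALN (5)).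
`T_ω(x) = P (x + ω) / α_ω(x)`. For `ω' ∈ L ∩ W`: `T_(ω+ω') = T_ω` (periods of P at
`x + ω`; write `ω + ω' = ω' + ω`). So T_ω(x) depends on `ω_C` only. Size:
`‖T_ω(x)‖ <= C exp ((πn/2) ‖x + ω‖^2 - ‖x_C + ω_C‖^2 - (πn/2)(‖x+ω‖^2 - ‖x‖^2))
= C exp ((πn/2) ‖x‖^2 - ‖x_C + ω_C‖^2)`, and `‖x_C + ν‖^2 >= ‖ν‖^2/2 - ‖x_C‖^2`: for `‖x‖ <= R` bounded by
`C exp((πn/2) R^2 + R^2) exp(- ‖ν‖^2/2)`, summable over ν (GSM, c = 1/2). HOL:
`F x = sum_ν T_(s ν)(x)` is entire. For `η ∈ L`: `T_ω(x + η) = α_η(x) T_(ω+η)(x)` (cocycle), and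
`T_(s ν + η) = T_(s(ν + η_C))`; reindex by the translation by `η_C ∈ LC L W` (`Equiv.addRight`,
`Equiv.tsum_eq`): `F (x + η) = α_η(x) F x`. First claim: all terms vanish. Second: only ν = 0 is left,
`s(0) ∈ L ∩ W`, and `T_(s 0)(x) = T_0(x) = P x`. -/
def PoiStmt : Prop :=
  ∀ (V : Type) [NormedAddCommGroup V] [InnerProductSpace ℂ V] [FiniteDimensional ℂ V]
    (L : AddSubgroup V) (χ : V → ℂ), LAT L χ → ∀ (W : Submodule ℂ V), AVW L W → ∀ (n : ℕ)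
    (P : V → ℂ) (C : ℝ), Differentiable ℂ P →
    (∀ ω ∈ L, ω ∈ W → ∀ x, P (x + ω) = χ ω ^ n * al (Real.pi * (n : ℝ)) ω x * P x) →
    (∀ x, ‖P x‖ ≤ C * Real.exp (Real.pi * (n : ℝ) / 2 * ‖x‖ ^ 2 - ‖Wᗮ.starProjection x‖ ^ 2)) →
    ∃ F ∈ TN L χ n, (∀ x, (∀ ω ∈ L, P (x + ω) = 0) → F x = 0) ∧
      ∀ x, (∀ ω ∈ L, ω ∉ W → P (x + ω) = 0) → F x = P x

/-- **Row CNT** (OUTPUT OF BLOCK B: separation of the points; uses PHI, POI). PROOF. For every i PHI at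
`lam i` with the functions `f i` gives P, POI gives F (n = r m' + 2). Value at `lam k`, k <> i: for
`ω ∈ L` the point `x = lam k + ω` has `x - lam i ∉ W` (incongruence) and `f i j x = 0` (periods of
`f i j` and `f i j (lam k) = 0`), so `P (lam k + ω) = 0` for all ω: `F (lam k) = 0`. Value at `lam i`: for
`ω ∈ L`, `ω ∉ W`: `lam i + ω - lam i ∉ W`, `f i j (lam i + ω) = 0`, so `P (lam i + ω) = 0`: `F (lam i)
= P (lam i) <> 0`. -/
def CntStmt : Prop :=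
  ∀ (V : Type) [NormedAddCommGroup V] [InnerProductSpace ℂ V] [FiniteDimensional ℂ V]
    (L : AddSubgroup V) (χ : V → ℂ), LAT L χ → ∀ (W : Submodule ℂ V), AVW L W → ∀ (m' r s : ℕ),
    r = Module.finrank ℂ ↥Wᗮ → ∀ (lam : Fin s → V) (f : Fin s → Fin r → V → ℂ),
    (∀ i k, i ≠ k → ∀ ω ∈ L, lam k + ω - lam i ∉ W) →
    (∀ i j, f i j ∈ TN L χ m') → (∀ i j k, f i j (lam k) = 0) →
    (∀ i j, ∀ w ∈ W, f i j (lam i + w) = 0) →
    (∀ i, ∀ v ∈ Wᗮ, (∀ j, fderiv ℂ (f i j) (lam i) v = 0) → v = 0) →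
    (∀ i, ∃ t ∈ TN L χ 2, t (lam i) ≠ 0) →
    ∃ F : Fin s → V → ℂ, ∀ i, F i ∈ TN L χ (r * m' + 2) ∧ F i (lam i) ≠ 0 ∧
      ∀ k, k ≠ i → F i (lam k) = 0

end Pool.Agent.ZES
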