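import Pool.Agent.ZES.Defs

/-!
ZES, block C: the chain lemma (pure algebra, uniform in the field). Complete proofs in the
docstrings. `P = MvPolynomial (Fin M) K`, `P_m = homogeneousSubmodule (Fin M) K m`.
-/

namespace Pool.Agent.ZES

open scoped BigOperators

/-- The forms of degree `m` which the evaluation at `v` sends into the ideal `I`. -/
noncomputable def UU {M : ℕ} {K R : Type} [Field K] [CommRing R] [Algebra K R] (v : Fin M → R)
    (I : Ideal R) (m : ℕ) : Submodule K (MvPolynomial (Fin M) K) :=
  MvPolynomial.homogeneousSubmodule (Fin M) K m ⊓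
    (I.restrictScalars K).comap (MvPolynomial.aeval v).toLinearMap

/-- **Row LSE** (equal sets of leading exponents imply equal subspaces). PROOF. Suppose `W ≤ V` fails.
Among all `p ∈ W` with `p ∉ V` (they are nonzero) choose one with minimal leading exponent
(`MonomialOrder.lex.degree`, well-founded: `MonomialOrder.wf`, `WellFounded.min`). Let `q ∈ V`,
`q <> 0` with the same leading exponent and `c = leadingCoeff p / leadingCoeff q`. `p' = p - c q` is
in W (V ≤ W) and not in V. If `p' = 0` then `p ∈ V`, contradiction; otherwise its leading exponent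
is smaller (the leading terms cancel: `MonomialOrder.degree_sub_..` or coefficient of the degree
is 0 and `degree_sub_le`), so `p' ∈ V` by minimality: contradiction. -/
def LseStmt : Prop :=
  ∀ (M : ℕ) (K : Type) [Field K] (V W : Submodule K (MvPolynomial (Fin M) K)), V ≤ W →
    (∀ p ∈ W, p ≠ 0 → ∃ q ∈ V, q ≠ 0 ∧
      (MonomialOrder.lex (σ := Fin M)).degree q = (MonomialOrder.lex (σ := Fin M)).degree p) → W ≤ V

/-- **Row PWM** (images of forms). PROOF. `P_m` is spanned by the monomials of degree `m`, and
`aeval v (monomial s 1) = ∏ v_i ^ s_i`, a product of `m` elements of `E = span (range v)`: `≤`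
(`Submodule.pow_subset_pow`, `Submodule.prod_mem..`; or induction on m: a monomial of degree m+1 is
`X i` times a monomial of degree m). `≥`: induction on m: `E ^ (m+1) = E ^ m * E`
(`Submodule.mul_le`); `aeval v p * v i = aeval v (p * X i)`, `p * X i ∈ P_(m+1)`; for a general element
of E use `Submodule.span_induction` or that E is the image of P_1. -/
def PwmStmt : Prop :=
  ∀ (M : ℕ) (K R : Type) [Field K] [CommRing R] [Algebra K R] (v : Fin M → R) (m : ℕ),
    (MvPolynomial.homogeneousSubmodule (Fin M) K m).map (MvPolynomial.aeval v).toLinearMap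
      = (Submodule.span K (Set.range v)) ^ m

/-- **Row UMU** (uses PWM). PROOF. (1) `U_m` times forms of degree k is in `U_(m+k)`
(`MvPolynomial.IsHomogeneous.mul`; I is an ideal). (2) Let `U_(2m) ≤ U_m * P_m` and
`x ∈ E ^ (2m) ⊓ I`: by PWM `x = aeval v p`, `p ∈ P_(2m)`, so `p ∈ U_(2m) ≤ U_m * P_m`; the image of a
product of submodules under an algebra homomorphism is the product of the images
(`Submodule.map_mul`), the image of `U_m` is in `E ^ m ⊓ I` and that of `P_m` in `E ^ m` (PWM). -/
def UmuStmt : Prop :=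
  ∀ (M : ℕ) (K R : Type) [Field K] [CommRing R] [Algebra K R] (v : Fin M → R) (I : Ideal R),
    (∀ m k : ℕ, UU (K := K) v I m * MvPolynomial.homogeneousSubmodule (Fin M) K k
      ≤ UU v I (m + k)) ∧
    ∀ m : ℕ, UU (K := K) v I (2 * m)
        ≤ UU v I m * MvPolynomial.homogeneousSubmodule (Fin M) K m →
      (Submodule.span K (Set.range v)) ^ (2 * m) ⊓ I.restrictScalars K
        ≤ ((Submodule.span K (Set.range v)) ^ m ⊓ I.restrictScalars K)
          * (Submodule.span K (Set.range v)) ^ m

/-- **Row BAD** (a bad sequence; uses LSE, UMU). PROOF. `in U` = set of the leading exponents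
(lex) of the nonzero elements of U. For `j ≤ J` put m = 2^j. `U_m * P_m ≤ U_(2m)` (UMU (1)) and `≠`
(hypothesis), so by LSE there is `p ∈ U_(2m)`, `p ≠ 0`, whose leading exponent `w j` is not the
leading exponent of a nonzero element of `U_m * P_m`. `p` is homogeneous of degree 2m and `w j` is
in its support, so the sum of `w j` is `2 * 2^j`. Let `i < j` and suppose `w i ≤ w j`. `w i` is the
leading exponent of some `p_i ∈ U_(2^(i+1))`, and `2^(i+1) ≤ 2^j = m`. Choose `u` with
`w i ≤ u ≤ w j` and sum of u equal to m (possible: sum (w i) ≤ m ≤ sum (w j); raise coordinates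
one at a time). Then `p_i * X^(u - w i) * X^(w j - u)` has leading exponent `w j`
(`MonomialOrder.degree_mul`, `degree_monomial`), `p_i * X^(u - w i) ∈ U_m` (UMU (1)),
`X^(w j - u) ∈ P_m`: `w j` is a leading exponent of `U_m * P_m`, contradiction. -/
def BadStmt : Prop :=
  ∀ (M J : ℕ) (K R : Type) [Field K] [CommRing R] [Algebra K R] (v : Fin M → R) (I : Ideal R),
    (∀ j ≤ J, ¬ UU (K := K) v I (2 * 2 ^ j)
      ≤ UU v I (2 ^ j) * MvPolynomial.homogeneousSubmodule (Fin M) K (2 ^ j)) →
    ∃ w : ℕ → Fin M → ℕ, (∀ j ≤ J, ∑ i, w j i = 2 * 2 ^ j) ∧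
      ∀ i j, i < j → j ≤ J → ¬ w i ≤ w j

/-- **Row DIK** (Dickson's lemma with a bound). PROOF. Suppose there is none: for every J there is
`w^J : ℕ → Fin M → ℕ` with `sum (w^J j) = 2 * 2^j` for `j ≤ J` and no `i < j ≤ J` with
`w^J i ≤ w^J j`. For each j the vectors with sum `2 * 2^j` form a finite set (`Finset.finAntidiagonal`
or: all coordinates ≤ 2 * 2^j, a finite box), so by a diagonal argument (Koenig) there is
`w : ℕ → Fin M → ℕ` such that for every n there are infinitely many J (in particular one `J ≥ n`)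
with `w^J j = w j` for all `j ≤ n`. (In Lean: the set `∏_j {box}` is compact
(`isCompact_univ_pi`, `Set.Finite.isCompact`) and the sequence (truncated: put `w^J j = 0` for j > J)
has a cluster point; or construct `w` by recursion with the pigeonhole principle
`Filter` / ultrafilter: take an ultrafilter `U` on ℕ finer than atTop (`Filter.hyperfilter ℕ`) and let
`w j` be the unique value with `∀ᶠ J in U, w^J j = w j`: exists because the values lie in a finite
set.) Then there are no `i < j` with `w i ≤ w j`, against Dickson's lemma for `Fin M → ℕ`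
(`Pi.isPWO`, `Set.isPWO_of_wellQuasiOrderedLE`, `wellQuasiOrdered_le`). -/
def DikStmt : Prop :=
  ∀ M : ℕ, ∃ J : ℕ, ∀ w : ℕ → Fin M → ℕ, (∀ j ≤ J, ∑ i, w j i = 2 * 2 ^ j) →
    ∃ i j, i < j ∧ j ≤ J ∧ w i ≤ w j

/-- **Row CHN** (OUTPUT OF BLOCK C, the chain lemma; uses UMU, BAD, DIK). PROOF. J from DIK. If no
`j ≤ J` has `U_(2 * 2^j) ≤ U_(2^j) * P_(2^j)`, BAD contradicts DIK. For such a j apply UMU (2). -/
def ChnStmt : Prop :=
  ∀ M : ℕ, ∃ J : ℕ, ∀ (K R : Type) [Field K] [CommRing R] [Algebra K R] (v : Fin M → R)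
    (I : Ideal R), ∃ j ≤ J,
      (Submodule.span K (Set.range v)) ^ (2 * 2 ^ j) ⊓ I.restrictScalars K
        ≤ ((Submodule.span K (Set.range v)) ^ (2 ^ j) ⊓ I.restrictScalars K)
          * (Submodule.span K (Set.range v)) ^ (2 ^ j)

end Pool.Agent.ZES
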