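import Pool.Agent.ZES.StmtsB

/-!
ZES, block F: Fourier coefficients of theta functions, the dimension of `RR τ n`, and the
multiplication `RR τ (4 e) ≤ RR τ (2 e) * RR τ (2 e)` for even `e`. Complete proofs in the
docstrings. The proved rows THS.Tbd, THS.Tpe, THS.Ort, THS.Tou and SZG.Tdf are used as hypotheses.
-/

namespace Pool.Agent.ZES

open scoped BigOperators
open Pool.Agent.THS

/-- **Row PRT** (real translations). PROOF. The integral of a continuous Z^g-periodic function over a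
translate of the unit cube does not depend on the translate. Via `UnitAddTorus (Fin g)`: H descends to
a continuous function on the torus, `∫ over Icc 0 1 = ∫ over the torus` (Mathlib
Analysis.Fourier.AddCircleMulti: `UnitAddTorus.integral_preimage`, measure zero boundary: `Icc` against
the product of `Ioc`), and the Haar measure is translation invariant (`integral_add_right_eq_self`).
(Another way: one coordinate at a time with `Function.Periodic.intervalIntegral_add_eq` and Fubini; or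
`IsAddFundamentalDomain`.) -/
def PrtStmt : Prop :=
  ∀ (g : ℕ) (H : (Fin g → ℝ) → ℂ), Continuous H →
    (∀ (t : Fin g → ℝ) (p : Fin g → ℤ), H (fun i => t i + (p i : ℝ)) = H t) → ∀ a : Fin g → ℝ,
    ∫ t in Set.Icc (0 : Fin g → ℝ) 1, H (t + a) = ∫ t in Set.Icc (0 : Fin g → ℝ) 1, H t

/-- **Row PIC** (complex translations; uses PRT). PROOF. Write `w = a + i b`, a, b real vectors. The
function `B(s) = ∫ G (t + a + s b) dt` of `s ∈ ℂ` is entire (differentiation under the integral over a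
compact set: the integrand is entire in s and bounded, with its derivative, for `|s| <= R`, t in the
cube: `hasDerivAt_integral_of_dominated_loc_of_deriv_le`, Cauchy estimate; or
`DifferentiableOn` of parameter integrals), and for real s it equals `∫ G` (PRT for
`H t = G (t)`, translation by `a + s b`). Identity theorem: B is constant; s = i. -/
def PicStmt : Prop :=
  ∀ (g : ℕ) (G : (Fin g → ℂ) → ℂ), PE G → ∀ w : Fin g → ℂ,
    ∫ t in Set.Icc (0 : Fin g → ℝ) 1, G (fun i => ((t i : ℝ) : ℂ) + w i)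
      = ∫ t in Set.Icc (0 : Fin g → ℝ) 1, G (fun i => ((t i : ℝ) : ℂ))

/-- **Row FSH** (uses PIC). PROOF. (1) `G x = F x * exp (- 2 pi i k.x)` is again entire with periods
Z^g (`exp (2 pi i (integer)) = 1`). PIC: `∫ F(t+w) exp(-2 pi i k.t) exp(-2 pi i k.w) dt = fc F k`.
(2) `exp (-2 pi i k.t) exp (2 pi i q.t) = exp (-2 pi i (k-q).t)`. (3) linearity of the integral, the
integrands are continuous on the compact cube. -/
def FshStmt : Prop :=
  ∀ (g : ℕ) (F : (Fin g → ℂ) → ℂ), PE F → ∀ k : Fin g → ℤ,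
    (∀ w : Fin g → ℂ, fc (fun x => F (x + w)) k
      = Complex.exp (2 * Real.pi * Complex.I * ∑ i, (k i : ℂ) * w i) * fc F k) ∧
    (∀ q : Fin g → ℤ, fc (fun x => Complex.exp (2 * Real.pi * Complex.I * ∑ i, (q i : ℂ) * x i)
      * F x) k = fc F (fun i => k i - q i)) ∧
    ∀ G : (Fin g → ℂ) → ℂ, PE G → ∀ c : ℂ, fc (fun x => F x + c * G x) k = fc F k + c * fc G k

/-- **Row FUQ** (uniqueness). PROOF. F restricted to real vectors is a continuous function on
`UnitAddTorus (Fin g)`; its `mFourierCoeff` are the `fc F k` (`UnitAddTorus.mFourierCoeff_eq_integral`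
and the null boundary), all zero, so summable, and
`UnitAddTorus.hasSum_mFourier_series_apply_of_summable` gives F = 0 on the real vectors. For
`x = u + i v`: `s ↦ F (u + s v)` is entire and zero for real s, so zero at s = i. -/
def FuqStmt : Prop :=
  ∀ (g : ℕ) (F : (Fin g → ℂ) → ℂ), PE F → (∀ k, fc F k = 0) → ∀ x, F x = 0

/-- **Row FSR** (coefficients of a series). PROOF. Exchange the sum and the integral over the cube
(`MeasureTheory.integral_tsum` / `hasSum_integral_of_summable_norm`, terms bounded by `‖c n‖`), and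
`∫ exp (2 pi i (n - k).t) dt = 1` for n = k and 0 otherwise (`UnitAddTorus` orthonormality, or a
product of one-dimensional integrals: `MeasureTheory.integral_fintype_prod_eq_prod`). -/
def FsrStmt : Prop :=
  ∀ (g : ℕ) (c : (Fin g → ℤ) → ℂ), Summable (fun n => ‖c n‖) → ∀ F : (Fin g → ℂ) → ℂ,
    (∀ t : Fin g → ℝ, F (fun i => ((t i : ℝ) : ℂ)) = ∑' n : Fin g → ℤ,
      c n * Complex.exp (2 * Real.pi * Complex.I * ∑ i, (n i : ℂ) * ((t i : ℝ) : ℂ))) →
    ∀ k, fc F k = c k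

/-- **Row QPR** (recursion; uses FSH). PROOF. Periods Z^g: q = 0. For `w = tau q`:
`F (x + w) = exp (- pi i n q.tau q) exp (- 2 pi i (n q).x) F x` (p = 0). k-th coefficients, FSH (1) and
(2) with `q → - n q`: `exp (2 pi i k.(tau q)) fc F k = exp (- pi i n q.tau q) fc F (k + n q)`. -/
def QprStmt : Prop :=
  ∀ (g : ℕ) (τ : Matrix (Fin g) (Fin g) ℂ) (n : ℕ), ∀ F ∈ RR τ n, PE F ∧
    ∀ k q : Fin g → ℤ, fc F (fun i => k i + (n : ℤ) * q i)
      = Complex.exp (Real.pi * Complex.I * (n : ℂ) * ∑ i, ∑ j, (q i : ℂ) * τ i j * (q j : ℂ)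
        + 2 * Real.pi * Complex.I * ∑ i, ∑ j, (k i : ℂ) * τ i j * (q j : ℂ)) * fc F k

/-- **Row DIM** (uses FSH, FUQ, QPR). PROOF. (1) every k is `k0 + n q` with `0 <= k0 < n`
(`Int.emod`, `Int.ediv`), QPR, so all coefficients vanish, FUQ. (2) the linear map
`F ↦ (fc F k0)_(k0 in (Fin n)^g)` (linear by FSH (3)) is injective by (1) into a space of dimension
`n ^ g`. -/
def DimStmt : Prop :=
  ∀ (g : ℕ) (τ : Matrix (Fin g) (Fin g) ℂ) (n : ℕ), 1 ≤ n →
    (∀ F ∈ RR τ n, (∀ k : Fin g → Fin n, fc F (fun i => ((k i).val : ℤ)) = 0) → ∀ x, F x = 0) ∧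
    Module.Finite ℂ ↥(RR τ n) ∧ Module.finrank ℂ ↥(RR τ n) ≤ n ^ g

/-- **Row VTF** (the standard theta functions; uses THS.Tbd, THS.Tpe, SZG.Tdf, FSR). PROOF. `n τ` is
Siegel. (1) differentiable: TDF composed with a linear map. Periods: `n (x + p + tau q) =
(n x + n p) + (n tau) q`: TPE (iii) for `n tau`, then TPE (ii) for `n p`, characteristic j/n:
`exp (2 pi i sum (j_i/n) (n p_i)) = 1`; in the exponent `- 2 pi i q.(n x + n p)`, `exp (- 2 pi i n q.p) = 1`.
(2) `(j + n p)/n = j/n + p`, TPE (i). (3) `vt τ n j x = sum_m exp (pi i n (m + j/n).tau (m + j/n)) *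
exp (2 pi i (n m + j).x)`; put `k = n m + j`: `c k = exp (pi i k.tau k / n)` if `n ∣ k_i - j_i` for all i
and `c k = 0` otherwise; summable by TBD (injective reindexing m ↦ n m + j, `Function.Injective.tsum_eq`,
support), FSR. -/
def VtfStmt : Prop :=
  ∀ (g : ℕ) (τ : Matrix (Fin g) (Fin g) ℂ), Siegel τ → ∀ (n : ℕ), 1 ≤ n → ∀ j : Fin g → ℤ,
    vt τ n j ∈ RR τ n ∧
    (∀ p : Fin g → ℤ, vt τ n (fun i => j i + (n : ℤ) * p i) = vt τ n j) ∧
    ∀ k : Fin g → ℤ, ((∀ i, (n : ℤ) ∣ k i - j i) → fc (vt τ n j) k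
        = Complex.exp (Real.pi * Complex.I * (∑ i, ∑ l, (k i : ℂ) * τ i l * (k l : ℂ)) / (n : ℂ))) ∧
      ((∃ i, ¬ (n : ℤ) ∣ k i - j i) → fc (vt τ n j) k = 0)

/-- **Row SPN** (the `vt τ n j` span; uses FSH, QPR, DIM, VTF). PROOF.
`c_j = fc F j / fc (vt τ n j) j` for `j ∈ (Fin n)^g` (the denominator is an exponential). The difference
`F - sum_j c_j vt τ n j` is in `RR τ n` and its coefficients at all `k ∈ (Fin n)^g` vanish (for
`0 <= j_i, k_i < n`, `n ∣ k_i - j_i` for all i only if k = j): DIM (1). -/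
def SpnStmt : Prop :=
  ∀ (g : ℕ) (τ : Matrix (Fin g) (Fin g) ℂ), Siegel τ → ∀ (n : ℕ), 1 ≤ n → ∀ F ∈ RR τ n,
    ∃ c : (Fin g → Fin n) → ℂ, ∀ x,
      F x = ∑ j : Fin g → Fin n, c j * vt τ n (fun i => ((j i).val : ℤ)) x

/-- **Row PR2** (product of two theta series with different characteristics; uses THS.Tbd, THS.Bij).
PROOF. The proof of `THS.PrdStatement` (see StmtsT of THS and its Lean proof) with s, s' instead of s, s:
`m = n + l + c`, `m' = n - l`, `m + s = U + W`, `m' + s' = U - W` with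
`U = n + (s+s')/2 + c/2`, `W = l + (s-s')/2 + c/2`. -/
def Pr2Stmt : Prop :=
  ∀ (g : ℕ) (τ : Matrix (Fin g) (Fin g) ℂ), Siegel τ → ∀ (s s' : Fin g → ℝ) (x y : Fin g → ℂ),
    ths τ s x * ths τ s' y = ∑ c : Fin g → ZMod 2,
      ths ((2 : ℂ) • τ) (fun i => (s i + s' i) / 2 + hv c i) (fun i => x i + y i)
        * ths ((2 : ℂ) • τ) (fun i => (s i - s' i) / 2 + hv c i) (fun i => x i - y i)

/-- **Row PRV** (uses PR2). PROOF. PR2 for `D τ`, characteristics i/D, j/D, x = y → D x: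
`(i/D + j/D)/2 + c/2 = (i + j + D c)/(2 D)`, `2 (D τ) = (2 D) τ`, `D x + D x = (2 D) x`,
`D x - D x = 0 = (2 D) 0`. -/
def PrvStmt : Prop :=
  ∀ (g : ℕ) (τ : Matrix (Fin g) (Fin g) ℂ), Siegel τ → ∀ (D : ℕ), 1 ≤ D → ∀ (i j : Fin g → ℤ)
    (x : Fin g → ℂ), vt τ D i x * vt τ D j x = ∑ c : Fin g → ZMod 2,
      vt τ (2 * D) (fun r => i r + j r + (D : ℤ) * ((c r).val : ℤ)) x
        * vt τ (2 * D) (fun r => i r - j r + (D : ℤ) * ((c r).val : ℤ)) 0

/-- **Row CHS** (character sums; uses PRV, VTF). PROOF. `D = 2 e`. PRV for `i + e c'`, `j + e c'`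
(c' with coordinates in {0,1}): the sum is `i + j + D c' + D c`, the difference `i - j + D c`. The
function `vt τ (2D) (k + D c)` depends on `c mod 2` only (VTF (2), 2 D ∣ D * 2), so
`i + j + D (c'.val + c.val)` may be replaced by `i + j + D (c' + c).val` (each coordinate differs by 0 or
2 D). Sum over c' with sgn b c', substitute `c'' = c' + c` and
`sgn b c' = sgn b c'' * sgn b c` (parity: `b.val * (c''.val + c.val)`). -/
def ChsStmt : Prop :=
  ∀ (g : ℕ) (τ : Matrix (Fin g) (Fin g) ℂ), Siegel τ → ∀ (e : ℕ), 1 ≤ e → ∀ (b : Fin g → ZMod 2)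
    (i j : Fin g → ℤ) (x : Fin g → ℂ),
    ∑ c : Fin g → ZMod 2, (sgn b c : ℂ)
        * (vt τ (2 * e) (fun r => i r + (e : ℤ) * ((c r).val : ℤ)) x
          * vt τ (2 * e) (fun r => j r + (e : ℤ) * ((c r).val : ℤ)) x)
      = (∑ c : Fin g → ZMod 2, (sgn b c : ℂ)
          * vt τ (4 * e) (fun r => i r + j r + 2 * (e : ℤ) * ((c r).val : ℤ)) x)
        * ∑ c : Fin g → ZMod 2, (sgn b c : ℂ)
          * vt τ (4 * e) (fun r => i r - j r + 2 * (e : ℤ) * ((c r).val : ℤ)) 0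

/-- **Row UVL** (the constant; uses THS.Tbd). PROOF. The left side is the sum over c and m in Z^g of
`(-1)^(b.c) exp (pi i 4 e (m + c/2 + k'/(4e)).tau (..))`, `k' = k + 2 s`. Put `l = 2 m + c` (bijection
`(c, m) ↦ l` of A x Z^g with Z^g; absolutely convergent by TBD for `4 e τ`): `(-1)^(b.c) = (-1)^(b.l)`,
`m + c/2 = l/2`: `sum_l (-1)^(b.l) exp (pi i e (l + k'/(2e)).tau (l + k'/(2e)))`. With `N = l + s/e`:
`l + k'/(2e) = N + k/(2e)`, `e (N + k/(2e)).tau (N + k/(2e)) = e N.tau N + N.tau k + k.tau k/(4e)` (tau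
symmetric), `(-1)^(b.l) = exp (pi i b.(N - s/e))`. So it is
`exp (pi i k.tau k/(4e) - pi i b.s/e)` times `sum_N exp (pi i e N.tau N + 2 pi i e N.x0)`,
`x0 = (tau k + b)/(2e)`, which is `vt τ e s x0` (`tht (e τ) (s/e) (e x0) l`). -/
def UvlStmt : Prop :=
  ∀ (g : ℕ) (τ : Matrix (Fin g) (Fin g) ℂ), Siegel τ → ∀ (e : ℕ), 1 ≤ e → ∀ (b : Fin g → ZMod 2)
    (k s : Fin g → ℤ), ∃ u : ℂ, u ≠ 0 ∧
      ∑ c : Fin g → ZMod 2, (sgn b c : ℂ)
          * vt τ (4 * e) (fun r => k r + 2 * s r + 2 * (e : ℤ) * ((c r).val : ℤ)) 0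
        = u * vt τ e s (fun r => ((∑ j, τ r j * (k j : ℂ)) + ((b r).val : ℂ)) / (2 * (e : ℂ)))

/-- **Row RML** (products). PROOF. (1) `Submodule.mul_le`: a product of functions in `RR τ a` and
`RR τ b` is entire with the product of the factors. (2) `Thc τ c` is in `RR τ 2`: differentiable by
SZG.Tdf for `2 τ` and composition; periods from THS.Tou (the factor is
`exp (-(2 pi i q.tau q) - 4 pi i q.x)`). (3) `e = 2 f`, f >= 1: by THS.Tou (no common zero) some
`Thc τ c x <> 0`; `F = (Thc τ c)^f ∈ RR τ (2 f)` by (1), (2) and induction. -/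
def RmlStmt : Prop :=
  ∀ (g : ℕ) (τ : Matrix (Fin g) (Fin g) ℂ), Siegel τ →
    (∀ a b : ℕ, RR τ a * RR τ b ≤ RR τ (a + b)) ∧
    ∀ (e : ℕ), Even e → 2 ≤ e → ∀ x : Fin g → ℂ, ∃ F ∈ RR τ e, F x ≠ 0

/-- **Row NVT** (uses SPN, RML). PROOF. RML (2) gives `F ∈ RR τ e`, `F x <> 0`; SPN: some
`vt τ e j x <> 0`. -/
def NvtStmt : Prop :=
  ∀ (g : ℕ) (τ : Matrix (Fin g) (Fin g) ℂ), Siegel τ → ∀ (e : ℕ), Even e → 2 ≤ e →
    ∀ x : Fin g → ℂ, ∃ s : Fin g → ℤ, vt τ e s x ≠ 0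

/-- **Row MUL** (OUTPUT OF BLOCK F; uses THS.Ort, VTF, SPN, CHS, UVL, NVT). PROOF. By SPN (n = 4 e) it is
enough that `vt τ (4e) k ∈ E * E`, `E = RR τ (2e)`, for `k ∈ Z^g`. For `b` let
`S_b x = sum_c sgn b c * vt τ (4e) (k + 2 e c) x`. `sum_b S_b = 2^g vt τ (4e) k` (ORT with d = 0,
sgn b 0 = 1), so it is enough that `S_b ∈ E * E`. NVT at `x0 = (tau k + b)/(2e)`: `s` with
`vt τ e s x0 <> 0`. `i = k + s`, `j = - s`: `i + j = k`, `i - j = k + 2 s`. CHS:
`sum_c sgn b c * (vt τ (2e) (i + e c) * vt τ (2e) (j + e c)) = S_b * U`, where `U = u * vt τ e s x0 <> 0`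
(UVL). The left side is in `E * E` (VTF (1)). -/
def MulStmt : Prop :=
  ∀ (g : ℕ) (τ : Matrix (Fin g) (Fin g) ℂ), Siegel τ → ∀ (e : ℕ), Even e → 2 ≤ e →
    RR τ (4 * e) ≤ RR τ (2 * e) * RR τ (2 * e)

end Pool.Agent.ZES
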