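import Pool.Agent.ZES.StmtsC

/-!
ZES, block G: the group of the common zeros and its tangent spaces. `V` is a finite-dimensional
complex normed space, `E` a space of entire functions with an addition law (`ES E`), `Γ` a subgroup,
`m` stable. Complete proofs in the docstrings. Write `V_m = E ^ m ⊓ Van Γ`, `Z = Zr E Γ m`.
-/

namespace Pool.Agent.ZES

open scoped BigOperators

/-- **Row PWD**. PROOF. `Differentiable` is closed under sums, scalar multiples and products: the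
functions which are differentiable form a subalgebra of `V → ℂ` containing E; `E ^ m` and products
of submodules of a subalgebra are in it (`Submodule.mul_le`, `Submodule.pow_induction_on_left'`, or
`Subalgebra.toSubmodule` with `Submodule.pow_le..`). Finite: `Submodule.FG.pow`, `Submodule.FG.mul`,
`Module.Finite.iff_fg`. The values: `q^m (x) = (q x)^m`. -/
def PwdStmt : Prop :=
  ∀ (V : Type) [NormedAddCommGroup V] [NormedSpace ℂ V] (E : Submodule ℂ (V → ℂ)), ES E →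
    ∀ m : ℕ, (∀ f ∈ E ^ m, Differentiable ℂ f) ∧ Module.Finite ℂ ↥(E ^ m) ∧
      ∀ q ∈ E, (fun x => q x ^ m) ∈ E ^ m

/-- **Row FLM** (finite-dimensional spaces of functions are closed under pointwise limits). PROOF. A
finite-dimensional subspace of the Hausdorff topological vector space `V → ℂ` (product topology) is
closed (`Submodule.closed_of_finiteDimensional`); `tendsto_pi_nhds`, `IsClosed.mem_of_tendsto`. -/
def FlmStmt : Prop :=
  ∀ (V : Type) (S : Submodule ℂ (V → ℂ)), Module.Finite ℂ S → ∀ (u : ℕ → V → ℂ) (f : V → ℂ),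
    (∀ n, u n ∈ S) → (∀ x, Filter.Tendsto (fun n => u n x) Filter.atTop (nhds (f x))) → f ∈ S

/-- **Row ADM** (addition law for powers). PROOF. (1) `f ∈ E ^ m`, `q ∈ E`: then
`f (x + y) * q (x - y) ^ m ∈ E ^ (2 * m)`: induction on m with `Submodule.pow_induction_on_left'`:
m = 0: f constant (algebraMap), `E ^ 0 = 1`. Product `f = p * f'`, `p ∈ E`, `f' ∈ E ^ m`:
`(p (x+y) q (x-y)) * (f' (x+y) q (x-y) ^ m) ∈ (E * E) * E ^ (2 m) = E ^ (2 (m+1))`; sums clear.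
(2) evenness: the same induction with `f (-x)`. -/
def AdmStmt : Prop :=
  ∀ (V : Type) [NormedAddCommGroup V] [NormedSpace ℂ V] (E : Submodule ℂ (V → ℂ)), ES E →
    ∀ (m : ℕ), ∀ f ∈ E ^ m, (∀ q ∈ E, ∀ y : V,
      (fun x => f (x + y) * q (x - y) ^ m) ∈ E ^ (2 * m)) ∧ (fun x => f (-x)) ∈ E ^ m

/-- **Row VMZ** (uses PWD). PROOF. By stability every `h ∈ E ^ (2 m) ⊓ Van Γ` is in
`(E ^ m ⊓ Van Γ) * E ^ m`. (1) h vanishes on Z: `Submodule.mul_induction_on`: a product `f * p` with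
`f ∈ V_m` vanishes on Z. (2) derivative: if `z ∈ Z` and `fderiv f z v = 0` for all `f ∈ V_m`, then
`fderiv (f * p) z v = f z * .. + p z * fderiv f z v = 0` (`fderiv_mul`, all functions in E ^ m are
differentiable, PWD), sums clear: so `fderiv h z v = 0`. -/
def VmzStmt : Prop :=
  ∀ (V : Type) [NormedAddCommGroup V] [NormedSpace ℂ V] (E : Submodule ℂ (V → ℂ)), ES E →
    ∀ (G : Set V) (m : ℕ), Stab E G m → ∀ h ∈ E ^ (2 * m) ⊓ Van G, ∀ z ∈ Zr E G m,
      h z = 0 ∧ ∀ v : V, (∀ f ∈ E ^ m ⊓ Van G, fderiv ℂ f z v = 0) → fderiv ℂ h z v = 0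

/-- **Row ZGR** (Z is a closed subgroup; uses PWD, ADM, VMZ). PROOF. (a) Γ ⊆ Z. (b) Let `γ ∈ Γ`,
`z ∈ Z`, `f ∈ V_m`; choose `q ∈ E` with `q (z - γ) <> 0` (nbp). `h x = f (x + γ) * q (x - γ) ^ m` is in
`E ^ (2m)` (ADM) and vanishes on Γ, so `h z = 0` (VMZ), so `f (z + γ) = 0`: `z + γ ∈ Z`. (c) Let
`y, z ∈ Z`, `f ∈ V_m`, `q (z - y) <> 0`: `h x = f (x + y) * q (x - y) ^ m` vanishes on Γ by (b)
(`x + y = y + x ∈ Z` for x ∈ Γ), so `h z = 0`, `f (z + y) = 0`. (d) `f (-x) ∈ V_m` by ADM and because Γ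
is a group; so `-z ∈ Z`. (e) closed: intersection of zero sets of continuous functions (PWD).
(f) Let `F ∈ E`, `F x <> 0`, F = 0 on Γ, `m ≥ 1`, `q ∈ E` with `q x <> 0`: `F * q ^ (m-1) ∈ V_m`
(`pow_succ`, `Submodule.mul_mem_mul`), not zero at x: `x ∉ Z`. -/
def ZgrStmt : Prop :=
  ∀ (V : Type) [NormedAddCommGroup V] [NormedSpace ℂ V] (E : Submodule ℂ (V → ℂ)), ES E →
    ∀ (Γ : AddSubgroup V) (m : ℕ), 1 ≤ m → Stab E (Γ : Set V) m →
      ∃ Z : AddSubgroup V, (Z : Set V) = Zr E (Γ : Set V) m ∧ IsClosed (Z : Set V) ∧ Γ ≤ Z ∧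
        ∀ F ∈ E, (∀ x ∈ Γ, F x = 0) → ∀ x, F x ≠ 0 → x ∉ Z ∧
          ∃ F' ∈ E ^ m ⊓ Van (Γ : Set V), F' x ≠ 0

/-- **Row TAN** (the tangent condition is translation invariant; uses PWD, ADM, VMZ, ZGR). PROOF. Let
`z0, z ∈ Z`, `y = z - z0 ∈ Z`, `f ∈ V_m`, `q ∈ E` with `q (z0 - y) <> 0`, `h x = f (x+y) * q (x-y) ^ m`:
in `E ^ (2m)` (ADM), zero on Γ (`x + y ∈ Z`), so `fderiv h z0 v = 0` (VMZ). Since `f (z0 + y) = 0`:
`fderiv h z0 v = fderiv f z v * q (z0 - y) ^ m` (product rule, `fderiv_comp_add_right`). -/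
def TanStmt : Prop :=
  ∀ (V : Type) [NormedAddCommGroup V] [NormedSpace ℂ V] (E : Submodule ℂ (V → ℂ)), ES E →
    ∀ (Γ : AddSubgroup V) (m : ℕ), 1 ≤ m → Stab E (Γ : Set V) m → ∀ v : V,
      ∀ z0 ∈ Zr E (Γ : Set V) m, (∀ f ∈ E ^ m ⊓ Van (Γ : Set V), fderiv ℂ f z0 v = 0) →
      ∀ z ∈ Zr E (Γ : Set V) m, ∀ f ∈ E ^ m ⊓ Van (Γ : Set V), fderiv ℂ f z v = 0

/-- **Row DER** (derivatives in E ^ (2 m); uses PWD, FLM, ADM). PROOF. For `t ∈ ℂ`:
`h_t x = f (x + t v) * q (x - t v) ^ m ∈ E ^ (2m)` (ADM, y = t v). With `t_n = 1/(n+1)`: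
`(h_(t_n) - h_0)/t_n ∈ E ^ (2m)` converges at every x to the derivative at t = 0
(`HasDerivAt.tendsto_slope` or `hasDerivAt_iff_tendsto_slope_zero`), which is
`fderiv f x v * q x ^ m - m * f x * q x ^ (m-1) * fderiv q x v` (product and chain rule, f and q
differentiable). FLM. -/
def DerStmt : Prop :=
  ∀ (V : Type) [NormedAddCommGroup V] [NormedSpace ℂ V] (E : Submodule ℂ (V → ℂ)), ES E →
    ∀ (m : ℕ), ∀ f ∈ E ^ m, ∀ q ∈ E, ∀ v : V,
      (fun x => fderiv ℂ f x v * q x ^ m - (m : ℂ) * f x * q x ^ (m - 1) * fderiv ℂ q x v)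
        ∈ E ^ (2 * m)

/-- **Row GEN** (finite system of generators). PROOF. `A` is finitely generated:
`A = span {f_1..f_s}`. `A * B` is spanned by products `(sum a_i f_i) * b`, each of the form
`sum_i f_i * (a_i b)`, and sums of such are of this form (`Submodule.mul_induction_on`). -/
def GenStmt : Prop :=
  ∀ (V : Type) (A B : Submodule ℂ (V → ℂ)), Module.Finite ℂ A →
    ∃ (s : ℕ) (f : Fin s → V → ℂ), (∀ i, f i ∈ A) ∧
      (∀ h ∈ A, ∃ c : Fin s → ℂ, h = fun x => ∑ i, c i * f i x) ∧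
      ∀ h ∈ A * B, ∃ c : Fin s → V → ℂ, (∀ i, c i ∈ B) ∧ h = fun x => ∑ i, f i x * c i x

/-- **Row ODE** (a linear system with zero initial value). PROOF. All functions are entire, so analytic
at 0. Claim: all `u_i` are 0 near 0; then they are 0 by the identity theorem. Proof of the claim: by
induction on n all iterated derivatives of order ≤ n of all `u_i` vanish at 0 (n = 0: hypothesis).
Equivalent and simpler: suppose some `u_i` is not 0 near 0; let k be the minimum over i of the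
orders `analyticOrderAt (u i) 0` (finite for this i), k ≥ 1 because `u_i 0 = 0`. Write
`u_i = t^k w_i` near 0, `w_i` analytic, with `w_i 0 <> 0` for some i
(`AnalyticAt.analyticOrderAt_eq_natCast`, `le_analyticOrderAt_iff..`). Near 0:
`a t (k t^(k-1) w_i + t^k w_i') = t^k (..)`; for t <> 0 divide by t^(k-1) and let t → 0:
`a(0) k w_i(0) = 0`, so all `w_i(0) = 0`: contradiction. (Another way: on a small disc `u' = A(t) u`
with `A = c/a` continuous, Gronwall `norm_le_gronwallBound_of_norm_deriv_right_le` on the segments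
from 0 to t.) -/
def OdeStmt : Prop :=
  ∀ (s : ℕ) (u : Fin s → ℂ → ℂ) (a : ℂ → ℂ) (c : Fin s → Fin s → ℂ → ℂ),
    (∀ i, Differentiable ℂ (u i)) → Differentiable ℂ a → (∀ i j, Differentiable ℂ (c i j)) →
    a 0 ≠ 0 → (∀ i, u i 0 = 0) → (∀ i t, a t * deriv (u i) t = ∑ j, c i j t * u j t) →
    ∀ i t, u i t = 0

/-- **Row LNZ** (a degenerate direction is contained in Z; uses PWD, VMZ, TAN, DER, GEN, ODE). PROOF.
By TAN `fderiv f z v = 0` for all `f ∈ V_m`, `z ∈ Z`. GEN for A = V_m, B = E ^ m: generators f_i. Fix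
`z ∈ Z` and `q ∈ E` with `q z <> 0`. DER for f_i: `D_i x = fderiv f_i x v q^m - m f_i q^(m-1) fderiv q x v`
is in `E ^ (2m)`, and vanishes on Γ (both `f_i` and `fderiv f_i x v` vanish at the points of Γ ⊆ Z). So
`D_i ∈ V_m * E ^ m` (stability), `D_i = sum_j f_j c_ij`, `c_ij ∈ E ^ m` (GEN). On the line `z + t v`:
`u_i t = f_i (z + t v)`, `u_i' t = fderiv f_i (z + t v) v`, `a t = q (z + t v) ^ m`:
`a u_i' = sum_j (c_ij + delta_ij m q^(m-1) fderiv q (..) v) u_j`; the function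
`t ↦ fderiv q (z + t v) v` is the derivative of the entire function `t ↦ q (z + t v)`, so entire.
`u_i 0 = 0`. ODE: `f_i (z + t v) = 0` for all t; all `f ∈ V_m` are combinations of the f_i (GEN):
`z + t v ∈ Z`. -/
def LnzStmt : Prop :=
  ∀ (V : Type) [NormedAddCommGroup V] [NormedSpace ℂ V] (E : Submodule ℂ (V → ℂ)), ES E →
    ∀ (Γ : AddSubgroup V) (m : ℕ), 1 ≤ m → Stab E (Γ : Set V) m → ∀ v : V,
      ∀ z0 ∈ Zr E (Γ : Set V) m, (∀ f ∈ E ^ m ⊓ Van (Γ : Set V), fderiv ℂ f z0 v = 0) →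
      ∀ z ∈ Zr E (Γ : Set V) m, ∀ t : ℂ, z + t • v ∈ Zr E (Γ : Set V) m

/-- **Row GOU** (OUTPUT OF BLOCK G; uses PWD, ZGR, LNZ). PROOF. Z from ZGR. `W = {w : c • w ∈ Z for all
complex c}` is a complex subspace (Z is a group). `←`: if `v ∈ W`, then `f (z + c v) = 0` for all c
(z + c v ∈ Z), so the derivative at c = 0 vanishes. `→`: LNZ with z = 0 ∈ Z. Last claim: if
`t • v ∈ Z` for all real t, then for `f ∈ V_m` the entire function `t ↦ f (t v)` of one complex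
variable vanishes on the reals, so everywhere (identity theorem,
`AnalyticOnNhd.eq_of_frequently_eq`), so `t • v ∈ Z` for all complex t: `v ∈ W`. -/
def GouStmt : Prop :=
  ∀ (V : Type) [NormedAddCommGroup V] [NormedSpace ℂ V] (E : Submodule ℂ (V → ℂ)), ES E →
    ∀ (Γ : AddSubgroup V) (m : ℕ), 1 ≤ m → Stab E (Γ : Set V) m →
      ∃ (Z : AddSubgroup V) (W : Submodule ℂ V), (Z : Set V) = Zr E (Γ : Set V) m ∧
        IsClosed (Z : Set V) ∧ Γ ≤ Z ∧
        (∀ F ∈ E, (∀ x ∈ Γ, F x = 0) → ∀ x, F x ≠ 0 → x ∉ Z ∧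
          ∃ F' ∈ E ^ m ⊓ Van (Γ : Set V), F' x ≠ 0) ∧
        (∀ w, w ∈ W ↔ ∀ c : ℂ, c • w ∈ Z) ∧
        (∀ z ∈ Z, ∀ v : V, (∀ f ∈ E ^ m ⊓ Van (Γ : Set V), fderiv ℂ f z v = 0) ↔ v ∈ W) ∧
        ∀ v : V, (∀ t : ℝ, (t : ℂ) • v ∈ Z) → v ∈ W

end Pool.Agent.ZES
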