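import Pool.Agent.ZES.StmtsF

/-!
ZES, block K: the gauge which turns theta functions of a Siegel matrix into the spaces `TN` of a
lattice in `EuclideanSpace ℂ (Fin g)`. Complete proofs in the docstrings.
-/

namespace Pool.Agent.ZES

open scoped BigOperators InnerProductSpace
open Pool.Agent.THS

/-- **Row QMX** (square root of the inverse). PROOF. `Y` is real, symmetric and positive definite, so is
`Y⁻¹` (`Matrix.PosDef.inv`), and `Y⁻¹ = Qᵀ Q` with a real invertible Q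
(`Matrix.posSemidef_iff_eq_conjTranspose_mul_self`, or the square root; Q is invertible because
`det Q ^ 2 = det Y⁻¹ <> 0`). The complex linear map `x ↦ Q x` (in `EuclideanSpace`, `WithLp.toLp`) is an
isomorphism, continuous (finite dimension, `LinearEquiv.toContinuousLinearEquiv`), and
`inner ℂ (Q x) (Q y) = sum_r conj((Q x)_r) (Q y)_r = sum_(i,j) conj(x_i) (Qᵀ Q)_(i,j) y_j`. -/
def QmxStmt : Prop :=
  ∀ (g : ℕ) (Y : Matrix (Fin g) (Fin g) ℝ), Y.PosDef →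
    ∃ Λ : (Fin g → ℂ) ≃L[ℂ] EuclideanSpace ℂ (Fin g), ∀ x y : Fin g → ℂ,
      inner ℂ (Λ x) (Λ y) = ∑ i, ∑ j, (starRingEnd ℂ) (x i) * ((Y⁻¹ i j : ℝ) : ℂ) * y j

/-- **Row PQI** (real coordinates). PROOF. For real vectors p, q let `T(p,q) = p + tau q`; the imaginary
part is `Y q`, `Y = Im tau` invertible, so T is an ℝ-linear injection `ℝ^g x ℝ^g → ℂ^g`; real
dimensions are both 2g, so it is bijective. (1) injectivity on integer vectors. (2) discrete: T is a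
homeomorphism (finite dimension) and `Z^g x Z^g` is discrete: there is ε > 0 such that
`‖T(p,q)‖ < ε` implies `‖p‖, ‖q‖ < 1`, so p = q = 0 for integer vectors. (3) the real span of
`T(Z^g x Z^g)` is the image of the real span of `Z^g x Z^g`, which is everything. -/
def PqiStmt : Prop :=
  ∀ (g : ℕ) (τ : Matrix (Fin g) (Fin g) ℂ), Siegel τ →
    (∀ p q p' q' : Fin g → ℤ, pr τ p q = pr τ p' q' → p = p' ∧ q = q') ∧
    (∃ ε : ℝ, 0 < ε ∧ ∀ w : Fin g → ℂ, InLat τ w → ‖w‖ < ε → w = 0) ∧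
    Submodule.span ℝ {w : Fin g → ℂ | InLat τ w} = ⊤

/-- **Row ALI** (the algebra of the gauge). PROOF. Let `B(x,y) = sum x_i Y⁻¹_ij y_j` (symmetric),
`H(x,y) = sum conj(x_i) Y⁻¹_ij y_j`, `ω = pr τ p q`, `Y⁻¹ Im ω = q`, so
`B(ω,x) - H(ω,x) = sum_i 2 i (Im ω)_i (Y⁻¹ x)_i = 2 i q.x` and `B(ω,ω) - H(ω,ω) = 2 i q.ω =
2 i (q.p + q.tau q)`. (1) hence
`(π/2)(B(x+ω,x+ω) - B(x,x)) = π B(ω,x) + (π/2) B(ω,ω)
= π (H(ω,x) + H(ω,ω)/2) + 2 π i q.x + π i q.p + π i q.tau q`.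
(2) `Im H(ω,η) = p.q' - p'.q`-type integer: with `ω = pr τ p q`, `η = pr τ p' q'`:
`H(ω,η) = B(ω,η) - 2 i q.η`, `H(η,ω) = B(ω,η) - 2 i q'.ω`, and `H(η,ω) = conj H(ω,η)`, so
`2 i Im H(ω,η) = H(ω,η) - H(η,ω) = 2 i (q'.ω - q.η) = 2 i (q'.p - q.p')` (`q'.tau q = q.tau q'`). -/
def AliStmt : Prop :=
  ∀ (g : ℕ) (τ : Matrix (Fin g) (Fin g) ℂ), Siegel τ →
    ∀ Y : Matrix (Fin g) (Fin g) ℝ, Y = τ.map Complex.im → ∀ (p q : Fin g → ℤ),
    (∀ x : Fin g → ℂ,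
      (Real.pi : ℂ) / 2 * (∑ i, ∑ j, (x + pr τ p q) i * ((Y⁻¹ i j : ℝ) : ℂ) * (x + pr τ p q) j)
        = (Real.pi : ℂ) / 2 * (∑ i, ∑ j, x i * ((Y⁻¹ i j : ℝ) : ℂ) * x j)
          + Real.pi * ((∑ i, ∑ j, (starRingEnd ℂ) (pr τ p q i) * ((Y⁻¹ i j : ℝ) : ℂ) * x j)
            + (∑ i, ∑ j, (starRingEnd ℂ) (pr τ p q i) * ((Y⁻¹ i j : ℝ) : ℂ) * pr τ p q j) / 2)
          + 2 * Real.pi * Complex.I * ∑ i, (q i : ℂ) * x i
          + Real.pi * Complex.I * ∑ i, (p i : ℂ) * (q i : ℂ)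
          + Real.pi * Complex.I * ∑ i, ∑ j, (q i : ℂ) * τ i j * (q j : ℂ)) ∧
    ∀ p' q' : Fin g → ℤ,
      (∑ i, ∑ j, (starRingEnd ℂ) (pr τ p q i) * ((Y⁻¹ i j : ℝ) : ℂ) * pr τ p' q' j).im
        = ∑ i, ((q' i : ℝ) * (p i : ℝ) - (q i : ℝ) * (p' i : ℝ))

/-- **Row GAU** (OUTPUT OF BLOCK K; uses QMX, PQI, ALI). PROOF. Y = Im tau, Λ from QMX, `L` = the image of
the lattice (AddSubgroup: `{v : InLat τ (Λ.symm v)}`, closed under sums and negatives), `β x =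
(π/2) sum x_i Y⁻¹_ij x_j`. For `v ∈ L` PQI (1) gives unique p, q with `Λ.symm v = pr τ p q`; put
`χ v = exp (π i p.q)` (= ±1; 1 outside L). LAT: discrete by PQI (2) (Λ is a homeomorphism); span by
PQI (3); `χ^2 = 1`; `χ(ω+η)/(χ ω χ η) = exp (π i (p.q' + p'.q))` and
`exp (π i Im<ω,η>) = exp (π i (q'.p - q.p'))` by QMX and ALI (2), equal because `2 q.p'` is even.
The equivalence: with `ω = Λ (pr τ p q)`, `G v = F (Λ.symm v) exp (n β (Λ.symm v))`: by ALI (1) and QMX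
(`‖ω‖^2 = <ω,ω>`, a real number) the relation `F (x + pr τ p q) = exp (- π i n q.tau q - 2 π i n q.x) F x`
is equivalent to `G (v + ω) = exp (π i p.q)^n exp (π n (<ω,v> + ‖ω‖^2/2)) G v` for `v = Λ x`: multiply
by `exp (n β (x + pr τ p q))`. Differentiability: composition with Λ, multiplication by a
non-vanishing entire function; and back. -/
def GauStmt : Prop :=
  ∀ (g : ℕ) (τ : Matrix (Fin g) (Fin g) ℂ), Siegel τ →
    ∃ (Λ : (Fin g → ℂ) ≃L[ℂ] EuclideanSpace ℂ (Fin g))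
      (L : AddSubgroup (EuclideanSpace ℂ (Fin g))) (χ : EuclideanSpace ℂ (Fin g) → ℂ)
      (β : (Fin g → ℂ) → ℂ), LAT L χ ∧ Differentiable ℂ β ∧
      (∀ v, v ∈ L ↔ InLat τ (Λ.symm v)) ∧
      ∀ (n : ℕ) (F : (Fin g → ℂ) → ℂ),
        F ∈ RR τ n ↔ (fun v => F (Λ.symm v) * Complex.exp ((n : ℂ) * β (Λ.symm v))) ∈ TN L χ n

end Pool.Agent.ZES
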