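import Pool.Agent.ZES.StmtsZ

/-!
ZES, final form: places of toric type (T) and of general type (S) together, and multiples `c z`.
-/

namespace Pool.Agent.ZES

open scoped BigOperators InnerProductSpace
open Pool.Agent.THS

/-- **The theorem, final form.** T: places where all multiples of `c z` reduce to the origin (no
condition on division points). S: places where `c z` is in the identity component and some division
point of order l is congruent to 0 modulo `v ^ e_v`. If S is empty, only the multiples of z need be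
rational and the order is bounded; it contains `THS.ThsStatement` (S empty) and `SzsStatement`. -/
def MixStatement : Prop :=
  ∀ (g : ℕ) (σ : ℝ), ∃ l : ℕ, l.Prime ∧ Odd l ∧ ∀ c d : ℕ, 0 < c → ∃ B : ℕ,
    ∀ (K : Type) [Field K] [NumberField K], Module.finrank ℚ K ≤ d →
    ∀ (φ : K →+* ℂ) (τ : Matrix (Fin g) (Fin g) ℂ), Siegel τ →
    ∀ z : Fin g → ℂ, (∃ N : ℕ, 0 < N ∧ InLat τ (fun i => (N : ℂ) * z i)) →
    ∀ (S T : Finset (NumberField.FinitePlace K)) (ev : NumberField.FinitePlace K → ℕ)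
      (x : SZG.Idx g → SZG.Ch g × SZG.Ch g → K),
    (∀ i : SZG.Idx g, S.Nonempty ∨ i.2 = 0 → x i ≠ 0 ∧
      ∃ μ : ℂ, ∀ ab, φ (x i ab) = μ * Vab τ ab.1 ab.2 (SZG.gam τ z l i)) →
    (∀ v ∈ T, v.val 2 = 1 ∧ ∀ k : ℤ, PC v.val (x (c * k, 0, 0)) (x 0)) →
    (∀ v ∈ S, v.val 2 = 1 ∧ 1 ≤ ev v ∧ (∀ k : ℤ, SZG.CM v.val (x (c * k, 0, 0)) (x 0)) ∧
      ∃ p q : Fin g → ℤ, (∃ i, ¬ (l : ℤ) ∣ p i ∨ ¬ (l : ℤ) ∣ q i) ∧
        ∀ u : ℤ, SZG.TC v.val ((qv v ^ ev v)⁻¹) (x (u • ((0, p, q) : SZG.Idx g))) (x 0)) →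
    Real.log (Height.mulHeight (x 0)) ≤ σ * (∑ v ∈ T, lN v + ∑ v ∈ S, (ev v : ℝ) * lN v) →
    (∃ M : ℕ, 1 ≤ M ∧ M ≤ B ∧ InLat τ (fun i => (M : ℂ) * z i)) ∨
    S.Nonempty ∧ ∃ W : Submodule ℂ (Fin g → ℂ), W ≠ ⊥ ∧ W ≠ ⊤ ∧ SubAV τ W ∧
      (∃ M : ℕ, 1 ≤ M ∧ M ≤ B ∧ ∃ u ∈ W, InLat τ (M • z - u)) ∧
      ∃ k : ℕ, 1 ≤ k ∧ k ≤ B ∧ ∀ v : Fin g → ℂ,
        (∀ f ∈ RR τ k, (∀ j : ℤ, ∀ w ∈ W, f (j • (c • z) + w) = 0) → fderiv ℂ f 0 v = 0) → v ∈ W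

end Pool.Agent.ZES
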